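import Mathlib

set_option autoImplicit false
set_option linter.unusedVariables false
set_option linter.unusedSimpArgs false

/-! Local factors of finite sets of linear forms, and their products over large primes.  The first
lemmas are those of `Pool.Agent.H362R2.R1.Loc`, repeated in order not to import the whole
development. -/

namespace Pool.Agent.H320RM.LF

open Finset Filter Topology

lemma sum_inv_sq_gt {y : ℕ} (hy : 1 ≤ y) (S : Finset ℕ) (hS : ∀ p ∈ S, y < p) :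
    ∑ p ∈ S, ((p:ℝ) ^ 2)⁻¹ ≤ 1 / y := by
  have hy0 : (0:ℝ) < y := by exact_mod_cast hy
  rcases S.eq_empty_or_nonempty with rfl | hne
  · simp
  · have hsub : S ⊆ Ioc y (S.sup id) := by
      intro p hp
      rw [mem_Ioc]
      exact ⟨hS p hp, le_sup (f := id) hp⟩
    have hle : y ≤ S.sup id := by
      obtain ⟨p, hp⟩ := hne
      have := mem_Ioc.1 (hsub hp)
      omega
    have h1 := sum_Ioc_inv_sq_le_sub (α := ℝ) (by omega : y ≠ 0) hle
    refine (sum_le_sum_of_subset_of_nonneg hsub fun i _ _ => by positivity).trans (h1.trans ?_)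
    have : (0:ℝ) ≤ ((S.sup id : ℕ) : ℝ)⁻¹ := by positivity
    rw [one_div]
    linarith


lemma one_sub_sum_le {ι : Type*} (s : Finset ι) (x : ι → ℝ) (h0 : ∀ i ∈ s, 0 ≤ x i) (h1 : ∀ i ∈ s, x i ≤ 1) :
    1 - ∑ i ∈ s, x i ≤ ∏ i ∈ s, (1 - x i) := by
  classical
  induction s using Finset.induction_on with
  | empty => simp
  | insert a s ha ih =>
    rw [sum_insert ha, prod_insert ha]
    have i1 := ih (fun i hi => h0 i (mem_insert_of_mem hi)) (fun i hi => h1 i (mem_insert_of_mem hi))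
    have i2 := h0 a (mem_insert_self _ _)
    have i3 := h1 a (mem_insert_self _ _)
    have i4 : 0 ≤ ∑ i ∈ s, x i := sum_nonneg fun i hi => h0 i (mem_insert_of_mem hi)
    have i5 : (1 - x a) * (1 - ∑ i ∈ s, x i) ≤ (1 - x a) * ∏ i ∈ s, (1 - x i) :=
      mul_le_mul_of_nonneg_left i1 (by linarith)
    have i6 : 0 ≤ x a * ∑ i ∈ s, x i := mul_nonneg i2 i4
    nlinarith


/-- number of residues mod `p` at which some form of `T` vanishes -/
def om (T : Finset (ℤ × ℤ)) (p : ℕ) : ℕ :=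
  ((range p).filter (fun n : ℕ => ∃ f ∈ T, (p : ℤ) ∣ f.1 * (n : ℤ) + f.2)).card

/-- local factor -/
noncomputable def lc (T : Finset (ℤ × ℤ)) (p : ℕ) : ℝ := (1 - (om T p : ℝ) / p) / (1 - 1 / (p : ℝ)) ^ T.card

/-- the constant of Hardy-Littlewood and Bateman-Horn -/
noncomputable def BH (T : Finset (ℤ × ℤ)) : ℝ := ∏' p : Nat.Primes, lc T p

lemma root_unique {p : ℕ} (hp : p.Prime) {a b : ℤ} (h : IsCoprime a b) {n m : ℕ} (hn : n < p) (hm : m < p)
    (h1 : (p : ℤ) ∣ a * n + b) (h2 : (p : ℤ) ∣ a * m + b) : n = m := by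
  have hpz : Prime (p : ℤ) := Nat.prime_iff_prime_int.1 hp
  have h3 : (p : ℤ) ∣ a * ((n : ℤ) - m) := by
    have := dvd_sub h1 h2
    have e : a * (n : ℤ) + b - (a * m + b) = a * ((n : ℤ) - m) := by ring
    rwa [e] at this
  rcases hpz.dvd_or_dvd h3 with h4 | h4
  · exfalso
    have h5 : (p : ℤ) ∣ b := by
      have := dvd_sub h1 (Dvd.dvd.mul_right h4 (n : ℤ))
      rwa [add_sub_cancel_left] at this
    exact hpz.not_isUnit (h.isUnit_of_dvd' h4 h5)
  · have h5 : (n : ℤ) ≡ m [ZMOD p] := (Int.modEq_iff_dvd.2 (by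
      have := (dvd_neg.2 h4)
      rwa [neg_sub] at this))
    have h6 : n ≡ m [MOD p] := (Int.natCast_modEq_iff).1 h5
    exact Nat.ModEq.eq_of_lt_of_lt h6 hn hm

lemma root_exists {p : ℕ} (hp : p.Prime) {a : ℤ} (b : ℤ) (ha : ¬ (p : ℤ) ∣ a) : ∃ n : ℕ, n < p ∧ (p : ℤ) ∣ a * n + b := by
  have hpz : Prime (p : ℤ) := Nat.prime_iff_prime_int.1 hp
  have hco : IsCoprime (p : ℤ) a := (Prime.coprime_iff_not_dvd hpz).2 ha
  obtain ⟨u, v, huv⟩ := hco
  have hp0 : (0 : ℤ) < p := by exact_mod_cast hp.pos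
  have hnn : 0 ≤ (-(b * v)) % (p : ℤ) := Int.emod_nonneg _ hp0.ne'
  refine ⟨((-(b * v)) % (p : ℤ)).toNat, ?_, ?_⟩
  · have := Int.emod_lt_of_pos (-(b * v)) hp0
    omega
  · rw [Int.toNat_of_nonneg hnn]
    have h1 : (p : ℤ) ∣ (-(b * v)) % (p : ℤ) - (-(b * v)) := by
      have := Int.emod_add_mul_ediv (-(b * v)) (p : ℤ)
      refine ⟨-((-(b * v)) / (p : ℤ)), ?_⟩
      linarith
    have h2 : a * ((-(b * v)) % (p : ℤ)) + b = a * ((-(b * v)) % (p : ℤ) - (-(b * v))) + b * (u * p) := by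
      have : b = b * (u * p + v * a) := by rw [huv, mul_one]
      calc a * ((-(b * v)) % (p : ℤ)) + b = a * ((-(b * v)) % (p : ℤ)) + b * (u * p + v * a) := by rw [huv, mul_one]
        _ = _ := by ring
    rw [h2]
    exact dvd_add (Dvd.dvd.mul_left h1 _) ⟨b * u, by ring⟩

lemma om_le (T : Finset (ℤ × ℤ)) {p : ℕ} (hp : p.Prime) (hT : ∀ f ∈ T, IsCoprime f.1 f.2) : om T p ≤ T.card := by
  classical
  have h1 : (range p).filter (fun n : ℕ => ∃ f ∈ T, (p : ℤ) ∣ f.1 * (n : ℤ) + f.2) ⊆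
      T.biUnion (fun f => (range p).filter (fun n : ℕ => (p : ℤ) ∣ f.1 * (n : ℤ) + f.2)) := by
    intro n hn
    rw [mem_filter] at hn
    obtain ⟨f, hf, hd⟩ := hn.2
    rw [mem_biUnion]
    exact ⟨f, hf, mem_filter.2 ⟨hn.1, hd⟩⟩
  refine (card_le_card h1).trans (card_biUnion_le.trans ?_)
  have h2 : ∀ f ∈ T, ((range p).filter (fun n : ℕ => (p : ℤ) ∣ f.1 * (n : ℤ) + f.2)).card ≤ 1 := by
    intro f hf
    rw [card_le_one]
    intro n hn m hm
    rw [mem_filter, mem_range] at hn hm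
    exact root_unique hp (hT f hf) hn.1 hm.1 hn.2 hm.2
  refine (sum_le_card_nsmul _ _ _ h2).trans ?_
  simp

/-- the discriminant -/
def DT (T : Finset (ℤ × ℤ)) : ℤ := (∏ f ∈ T, f.1) * ∏ x ∈ T.offDiag, (x.1.1 * x.2.2 - x.1.2 * x.2.1)

lemma le_om (T : Finset (ℤ × ℤ)) {p : ℕ} (hp : p.Prime) (hD : ¬ (p : ℤ) ∣ DT T) : T.card ≤ om T p := by
  classical
  have h1 : ∀ f : T, ∃ n : ℕ, n < p ∧ (p : ℤ) ∣ f.1.1 * n + f.1.2 := by
    intro f
    apply root_exists hp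
    intro h
    apply hD
    unfold DT
    apply Dvd.dvd.mul_right
    exact h.trans (dvd_prod_of_mem (fun f : ℤ × ℤ => f.1) f.2)
  choose r hr using h1
  unfold om
  rw [← card_attach]
  refine card_le_card_of_injOn r ?_ ?_
  · intro f _
    rw [mem_coe, mem_filter, mem_range]
    exact ⟨(hr f).1, f.1, f.2, (hr f).2⟩
  · intro f _ g _ hfg
    by_contra hne
    apply hD
    have hne' : f.1 ≠ g.1 := fun h => hne (Subtype.ext h)
    have h2 := (hr f).2
    have h3 := (hr g).2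
    rw [← hfg] at h3
    have h4 : (p : ℤ) ∣ f.1.1 * g.1.2 - f.1.2 * g.1.1 := by
      have := dvd_sub (Dvd.dvd.mul_left h3 f.1.1) (Dvd.dvd.mul_left h2 g.1.1)
      have e : f.1.1 * (g.1.1 * ((r f : ℕ) : ℤ) + g.1.2) - g.1.1 * (f.1.1 * ((r f : ℕ) : ℤ) + f.1.2) =
          f.1.1 * g.1.2 - f.1.2 * g.1.1 := by ring
      rwa [e] at this
    unfold DT
    apply Dvd.dvd.mul_left
    exact h4.trans (dvd_prod_of_mem (fun x : (ℤ × ℤ) × (ℤ × ℤ) => x.1.1 * x.2.2 - x.1.2 * x.2.1)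
      (mem_offDiag.2 ⟨f.2, g.2, hne'⟩ : (f.1, g.1) ∈ T.offDiag))

lemma lc_ge (T : Finset (ℤ × ℤ)) {p : ℕ} (hp : p.Prime) (hT : ∀ f ∈ T, IsCoprime f.1 f.2) (hTp : T.card ≤ p) :
    1 - (T.card : ℝ) ^ 2 * ((p : ℝ) ^ 2)⁻¹ ≤ lc T p := by
  unfold lc
  set r := T.card with hr
  have hp0 : (0:ℝ) < p := by exact_mod_cast hp.pos
  have hp2 : (2:ℝ) ≤ p := by exact_mod_cast hp.two_le
  set x : ℝ := 1 / p with hx
  have hx0 : 0 < x := by positivity
  have hx1 : x ≤ 1 / 2 := one_div_le_one_div_of_le (by norm_num) hp2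
  have hrx : (r:ℝ) * x ≤ 1 := by
    rw [hx, mul_one_div, div_le_one hp0]
    exact_mod_cast hTp
  have h1 : (1 - x) ^ r * (1 + r * x) ≤ 1 := by
    have h2 : 1 + (r:ℝ) * x ≤ (1 + x) ^ r := one_add_mul_le_pow (by linarith) r
    calc (1 - x) ^ r * (1 + r * x) ≤ (1 - x) ^ r * (1 + x) ^ r :=
          mul_le_mul_of_nonneg_left h2 (pow_nonneg (by linarith) _)
      _ = ((1 - x) * (1 + x)) ^ r := by rw [mul_pow]
      _ ≤ 1 := pow_le_one₀ (mul_nonneg (by linarith) (by linarith)) (by nlinarith)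
  have h2 : 0 < (1 - x) ^ r := pow_pos (by linarith) _
  rw [le_div_iff₀ h2]
  have h3 : (om T p : ℝ) / p ≤ r * x := by
    rw [hx, mul_one_div]
    apply div_le_div_of_nonneg_right _ hp0.le
    exact_mod_cast om_le T hp hT
  have h4 : 1 - (r:ℝ) ^ 2 * ((p : ℝ) ^ 2)⁻¹ = (1 - r * x) * (1 + r * x) := by
    rw [hx]; field_simp; ring
  rw [h4]
  calc (1 - r * x) * (1 + r * x) * (1 - x) ^ r = (1 - r * x) * ((1 - x) ^ r * (1 + r * x)) := by ring
    _ ≤ (1 - r * x) * 1 := mul_le_mul_of_nonneg_left h1 (by linarith)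
    _ ≤ 1 - (om T p : ℝ) / p := by linarith

lemma om_lt (T : Finset (ℤ × ℤ)) (p : ℕ) : om T p ≤ p := by
  unfold om
  refine (card_filter_le _ _).trans ?_
  rw [card_range]

lemma lc_nonneg (T : Finset (ℤ × ℤ)) {p : ℕ} (hp : p.Prime) : 0 ≤ lc T p := by
  unfold lc
  have hp0 : (0:ℝ) < p := by exact_mod_cast hp.pos
  have hp2 : (2:ℝ) ≤ p := by exact_mod_cast hp.two_le
  have h1 : (1:ℝ) / p ≤ 1 / 2 := one_div_le_one_div_of_le (by norm_num) hp2
  apply div_nonneg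
  · rw [sub_nonneg, div_le_one hp0]
    exact_mod_cast om_lt T p
  · exact pow_nonneg (by linarith) _

lemma lc_le_one (T : Finset (ℤ × ℤ)) {p : ℕ} (hp : p.Prime) (hD : ¬ (p : ℤ) ∣ DT T) : lc T p ≤ 1 := by
  unfold lc
  have hp0 : (0:ℝ) < p := by exact_mod_cast hp.pos
  have hp2 : (2:ℝ) ≤ p := by exact_mod_cast hp.two_le
  have h1 : (1:ℝ) / p ≤ 1 / 2 := one_div_le_one_div_of_le (by norm_num) hp2
  have h2 : 0 < (1 - 1 / (p:ℝ)) ^ T.card := pow_pos (by linarith) _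
  rw [div_le_one h2]
  have h3 := one_add_mul_le_pow (a := -(1 / (p:ℝ))) (by linarith) T.card
  have h4 : (T.card : ℝ) / p ≤ (om T p : ℝ) / p := by
    apply div_le_div_of_nonneg_right _ hp0.le
    exact_mod_cast le_om T hp hD
  calc 1 - (om T p : ℝ) / p ≤ 1 - (T.card : ℝ) / p := by linarith
    _ = 1 + (T.card : ℝ) * -(1 / (p:ℝ)) := by ring
    _ ≤ (1 + -(1 / (p:ℝ))) ^ T.card := h3
    _ = _ := by ring_nf

lemma lc_le_exp (T : Finset (ℤ × ℤ)) {p : ℕ} (hp : p.Prime) : lc T p ≤ Real.exp (2 * T.card / p) := by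
  unfold lc
  have hp0 : (0:ℝ) < p := by exact_mod_cast hp.pos
  have hp2 : (2:ℝ) ≤ p := by exact_mod_cast hp.two_le
  have h1 : (1:ℝ) / p ≤ 1 / 2 := one_div_le_one_div_of_le (by norm_num) hp2
  have hx0 : 0 < (1:ℝ) / p := by positivity
  have h2 : 0 < (1 - 1 / (p:ℝ)) ^ T.card := pow_pos (by linarith) _
  rw [div_le_iff₀ h2]
  have h3 : 1 ≤ Real.exp (2 / p) * (1 - 1 / (p:ℝ)) := by
    have h4 : 1 + 2 / (p:ℝ) ≤ Real.exp (2 / p) := by
      have := Real.add_one_le_exp (2 / (p:ℝ)); linarith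
    have h5 : 1 ≤ (1 + 2 / (p:ℝ)) * (1 - 1 / (p:ℝ)) := by
      have e : (2:ℝ) / p = 2 * (1 / p) := by ring
      rw [e]
      nlinarith
    exact h5.trans (mul_le_mul_of_nonneg_right h4 (by linarith))
  have h6 : Real.exp (2 * T.card / p) * (1 - 1 / (p:ℝ)) ^ T.card = (Real.exp (2 / p) * (1 - 1 / (p:ℝ))) ^ T.card := by
    rw [mul_pow, ← Real.exp_nat_mul]
    congr 2
    ring
  rw [h6]
  have h7 : 0 ≤ (om T p : ℝ) / p := by positivity
  calc 1 - (om T p : ℝ) / p ≤ 1 := by linarith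
    _ ≤ _ := one_le_pow₀ h3

lemma DT_ne_zero (T : Finset (ℤ × ℤ)) (h0 : ∀ f ∈ T, 0 < f.1) (hT : ∀ f ∈ T, IsCoprime f.1 f.2) : DT T ≠ 0 := by
  unfold DT
  apply mul_ne_zero
  · rw [prod_ne_zero_iff]
    exact fun f hf => (h0 f hf).ne'
  · rw [prod_ne_zero_iff]
    rintro ⟨f, g⟩ hx h
    rw [mem_offDiag] at hx
    obtain ⟨hf, hg, hne⟩ := hx
    apply hne
    simp only at hf hg hne h
    have h1 : f.1 * g.2 = f.2 * g.1 := by linarith
    have h2 : f.1 ∣ g.1 := (hT f hf).dvd_of_dvd_mul_left ⟨g.2, by rw [h1]⟩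
    have h3 : g.1 ∣ f.1 := (hT g hg).dvd_of_dvd_mul_right ⟨f.2, by rw [h1]; ring⟩
    have h4 : f.1 = g.1 := Int.dvd_antisymm (h0 f hf).le (h0 g hg).le h2 h3
    have h5 : f.2 = g.2 := by
      rw [h4] at h1
      have := (h0 g hg).ne'
      have h6 : g.1 * g.2 = g.1 * f.2 := by rw [h1]; ring
      exact (mul_left_cancel₀ this h6).symm
    exact Prod.ext h4 h5

/-- number of large prime factors -/
lemma big_primes (D : ℤ) (hD : D ≠ 0) (z : ℕ) (hz : 2 ≤ z) (S : Finset ℕ) (hS : ∀ p ∈ S, p.Prime ∧ z < p ∧ (p : ℤ) ∣ D) :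
    ∑ p ∈ S, (1 : ℝ) / p ≤ Real.log |(D : ℝ)| / (z * Real.log z) := by
  have hz0 : (0:ℝ) < z := by exact_mod_cast (by omega : 0 < z)
  have hlz : 0 < Real.log z := Real.log_pos (by exact_mod_cast (by omega : 1 < z))
  have h1 : ((∏ p ∈ S, p : ℕ) : ℤ) ∣ D := by
    have h2 : ∏ p ∈ S, p ∣ D.natAbs := by
      apply Finset.prod_primes_dvd
      · intro p hp
        exact (Nat.prime_iff.1 (hS p hp).1)
      · intro p hp
        exact Int.natCast_dvd.1 (hS p hp).2.2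
    exact Int.natCast_dvd.2 h2
  have h3 : ((∏ p ∈ S, p : ℕ) : ℝ) ≤ |(D : ℝ)| := by
    have h4 := Int.le_of_dvd (abs_pos.2 hD) ((dvd_abs _ _).2 h1)
    have h5 : (((∏ p ∈ S, p : ℕ) : ℤ) : ℝ) ≤ ((|D| : ℤ) : ℝ) := by exact_mod_cast h4
    push_cast at h5 ⊢
    exact h5
  have h6 : (S.card : ℝ) * Real.log z ≤ Real.log |(D : ℝ)| := by
    have h7 : (z : ℝ) ^ S.card ≤ ((∏ p ∈ S, p : ℕ) : ℝ) := by
      push_cast
      rw [← prod_const]
      apply Finset.prod_le_prod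
      · intro p _; exact hz0.le
      · intro p hp
        exact_mod_cast (hS p hp).2.1.le
    rw [← Real.log_pow]
    exact Real.log_le_log (by positivity) (h7.trans h3)
  calc ∑ p ∈ S, (1 : ℝ) / p ≤ ∑ p ∈ S, (1 : ℝ) / z := by
        apply sum_le_sum
        intro p hp
        apply one_div_le_one_div_of_le hz0
        exact_mod_cast (hS p hp).2.1.le
    _ = S.card / z := by rw [sum_const, nsmul_eq_mul, mul_one_div]
    _ ≤ (Real.log |(D : ℝ)| / Real.log z) / z := by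
        apply div_le_div_of_nonneg_right _ hz0.le
        rw [le_div_iff₀ hlz]
        exact h6
    _ = _ := by rw [div_div, mul_comm]

lemma log_DT (T : Finset (ℤ × ℤ)) (H : ℝ) (hH : 1 ≤ H) (h0 : ∀ f ∈ T, |(f.1 : ℝ)| ≤ H ∧ |(f.2 : ℝ)| ≤ H) :
    |(DT T : ℝ)| ≤ (2 * H ^ 2) ^ (T.card + T.card * T.card) := by
  have hH2 : 1 ≤ 2 * H ^ 2 := by nlinarith
  have hHH : H ≤ 2 * H ^ 2 := by nlinarith
  unfold DT
  push_cast
  rw [abs_mul, pow_add, Finset.abs_prod, Finset.abs_prod]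
  apply mul_le_mul
  · calc ∏ f ∈ T, |(f.1 : ℝ)| ≤ ∏ f ∈ T, (2 * H ^ 2) := by
          apply Finset.prod_le_prod
          · intro f _; exact abs_nonneg _
          · intro f hf; exact (h0 f hf).1.trans hHH
      _ = _ := by rw [prod_const]
  · calc ∏ x ∈ T.offDiag, |((x.1.1 : ℝ) * x.2.2 - x.1.2 * x.2.1)| ≤ ∏ x ∈ T.offDiag, (2 * H ^ 2) := by
          apply Finset.prod_le_prod
          · intro x _; exact abs_nonneg _
          · intro x hx
            rw [mem_offDiag] at hx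
            have a1 := h0 x.1 hx.1
            have a2 := h0 x.2 hx.2.1
            calc |((x.1.1 : ℝ) * x.2.2 - x.1.2 * x.2.1)| ≤ |(x.1.1 : ℝ) * x.2.2| + |(x.1.2 : ℝ) * x.2.1| := abs_sub _ _
              _ = |(x.1.1 : ℝ)| * |(x.2.2 : ℝ)| + |(x.1.2 : ℝ)| * |(x.2.1 : ℝ)| := by rw [abs_mul, abs_mul]
              _ ≤ H * H + H * H := by
                  apply add_le_add
                  · exact mul_le_mul a1.1 a2.2 (abs_nonneg _) (by linarith)
                  · exact mul_le_mul a1.2 a2.1 (abs_nonneg _) (by linarith)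
              _ = _ := by ring
      _ = (2 * H ^ 2) ^ T.offDiag.card := by rw [prod_const]
      _ ≤ _ := by
          apply pow_le_pow_right₀ hH2
          rw [offDiag_card]
          exact Nat.sub_le _ _
  · exact prod_nonneg fun x _ => abs_nonneg _
  · positivity


/-- the products of the local factors over large primes, with the set of forms depending on the prime -/
theorem tail_key (r : ℕ) (ε : ℝ) (hε : 0 < ε) : ∃ z0 : ℕ, ∀ z : ℕ, z0 ≤ z → ∀ H : ℝ, 1 ≤ H → Real.log (2 * H ^ 2) ≤ z →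
    ∀ T : Finset (ℤ × ℤ), T.card = r → DT T ≠ 0 → (∀ f ∈ T, IsCoprime f.1 f.2) →
      (∀ f ∈ T, |(f.1 : ℝ)| ≤ H ∧ |(f.2 : ℝ)| ≤ H) →
      ∀ A : Finset ℕ, (∀ p ∈ A, p.Prime ∧ z < p) → ∀ S : ℕ → Finset (ℤ × ℤ), (∀ p, S p ⊆ T) →
      1 - ε ≤ ∏ p ∈ A, lc (S p) p ∧ ∏ p ∈ A, lc (S p) p ≤ 1 + ε := by
  classical
  have tz : Tendsto (fun z : ℕ => (z : ℝ)) atTop atTop := tendsto_natCast_atTop_atTop
  have tl : Tendsto (fun z : ℕ => Real.log (z : ℝ)) atTop atTop := Real.tendsto_log_atTop.comp tz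
  have hl1 : 0 < Real.log (1 + ε) := Real.log_pos (by linarith)
  have hev : ∀ᶠ z : ℕ in atTop, 2 ≤ z ∧ r ≤ z ∧ (r : ℝ) ^ 2 / ε ≤ z ∧
      (2 * r * (r + r * r) : ℝ) / Real.log (1 + ε) ≤ Real.log z := by
    filter_upwards [eventually_ge_atTop 2, eventually_ge_atTop r, tz.eventually_ge_atTop ((r : ℝ) ^ 2 / ε),
      tl.eventually_ge_atTop ((2 * r * (r + r * r) : ℝ) / Real.log (1 + ε))] with z h1 h2 h3 h4
    exact ⟨h1, h2, h3, h4⟩
  obtain ⟨z0, hz0⟩ := eventually_atTop.1 hev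
  refine ⟨z0, fun z hz H hH hlog T hTr hD hT hTH A hA S hS => ?_⟩
  obtain ⟨hz2, hzr, hze, hzl⟩ := hz0 z hz
  have hz0' : (0:ℝ) < z := by exact_mod_cast (by omega : 0 < z)
  have hlz : 0 < Real.log z := Real.log_pos (by exact_mod_cast (by omega : 1 < z))
  have hcard : ∀ p, (S p).card ≤ r := fun p => hTr ▸ card_le_card (hS p)
  have hr : ∀ p ∈ A, r ≤ p := by
    intro p hp
    have := (hA p hp).2
    omega
  have hSc : ∀ p, ∀ f ∈ S p, IsCoprime f.1 f.2 := fun p f hf => hT f (hS p hf)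
  have hDS : ∀ p, DT (S p) ∣ DT T := by
    intro p
    unfold DT
    apply mul_dvd_mul
    · exact prod_dvd_prod_of_subset _ _ _ (hS p)
    · apply prod_dvd_prod_of_subset
      intro x hx
      rw [mem_offDiag] at hx ⊢
      exact ⟨hS p hx.1, hS p hx.2.1, hx.2.2⟩
  constructor
  · have hsum : ∑ p ∈ A, (r : ℝ) ^ 2 * ((p : ℝ) ^ 2)⁻¹ ≤ ε := by
      rw [← mul_sum]
      have h2 : ∑ p ∈ A, ((p : ℝ) ^ 2)⁻¹ ≤ 1 / z := sum_inv_sq_gt (by omega : 1 ≤ z) A (fun p hp => (hA p hp).2)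
      calc (r : ℝ) ^ 2 * ∑ p ∈ A, ((p : ℝ) ^ 2)⁻¹ ≤ (r : ℝ) ^ 2 * (1 / z) := by gcongr
        _ ≤ ε := by
            rw [mul_one_div, div_le_iff₀ hz0']
            rw [div_le_iff₀ hε] at hze
            linarith
    have h1' : ∀ p ∈ A, (r : ℝ) ^ 2 * ((p : ℝ) ^ 2)⁻¹ ≤ 1 := by
      intro p hp
      have h3 : (r : ℝ) ≤ (p : ℝ) := by exact_mod_cast hr p hp
      have h4 : (0:ℝ) < (p : ℝ) := by exact_mod_cast (hA p hp).1.pos
      rw [← div_eq_mul_inv, div_le_one (by positivity)]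
      exact pow_le_pow_left₀ (Nat.cast_nonneg _) h3 2
    have h2 := one_sub_sum_le A (fun p => (r : ℝ) ^ 2 * ((p : ℝ) ^ 2)⁻¹) (fun p _ => by positivity) h1'
    have h3 : ∏ p ∈ A, (1 - (r : ℝ) ^ 2 * ((p : ℝ) ^ 2)⁻¹) ≤ ∏ p ∈ A, lc (S p) p := by
      apply Finset.prod_le_prod
      · intro p hp
        have := h1' p hp
        linarith
      · intro p hp
        refine le_trans ?_ (lc_ge (S p) (hA p hp).1 (hSc p) ((hcard p).trans (hr p hp)))
        have h5 : ((S p).card : ℝ) ≤ r := by exact_mod_cast hcard p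
        have h6 : ((S p).card : ℝ) ^ 2 * ((p : ℝ) ^ 2)⁻¹ ≤ (r : ℝ) ^ 2 * ((p : ℝ) ^ 2)⁻¹ := by gcongr
        linarith
    linarith
  · have h1 : ∀ p ∈ A, lc (S p) p ≤ Real.exp (if (p : ℤ) ∣ DT T then 2 * r * (1 / (p : ℝ)) else 0) := by
      intro p hp
      split_ifs with h
      · refine (lc_le_exp (S p) (hA p hp).1).trans ?_
        apply Real.exp_le_exp.2
        rw [mul_one_div]
        have h5 : ((S p).card : ℝ) ≤ r := by exact_mod_cast hcard p
        gcongr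
      · rw [Real.exp_zero]
        exact lc_le_one (S p) (hA p hp).1 (fun h2 => h (h2.trans (hDS p)))
    refine (Finset.prod_le_prod (fun p hp => lc_nonneg (S p) (hA p hp).1) h1).trans ?_
    rw [← Real.exp_sum, ← sum_filter, ← mul_sum]
    have h2 : ∑ p ∈ A.filter (fun p : ℕ => (p : ℤ) ∣ DT T), (1 : ℝ) / (p : ℝ) ≤ (r + r * r) / Real.log z := by
      have h3 := big_primes (DT T) hD z hz2 (A.filter (fun p : ℕ => (p : ℤ) ∣ DT T)) (by
        intro p hp
        rw [mem_filter] at hp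
        exact ⟨(hA p hp.1).1, (hA p hp.1).2, hp.2⟩)
      refine h3.trans ?_
      have h4 := log_DT T H hH hTH
      have hD0 : 0 < |(DT T : ℝ)| := abs_pos.2 (by exact_mod_cast hD)
      have h5 := Real.log_le_log hD0 h4
      rw [Real.log_pow, hTr] at h5
      rw [div_le_div_iff₀ (by positivity) hlz]
      have h6 : Real.log |(DT T : ℝ)| ≤ ((r : ℝ) + r * r) * z := by
        refine h5.trans ?_
        push_cast
        exact mul_le_mul_of_nonneg_left hlog (by positivity)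
      calc Real.log |(DT T : ℝ)| * Real.log z ≤ (((r : ℝ) + r * r) * z) * Real.log z :=
            mul_le_mul_of_nonneg_right h6 hlz.le
        _ = _ := by ring
    rw [← Real.le_log_iff_exp_le (by linarith)]
    calc 2 * (r : ℝ) * ∑ p ∈ A.filter (fun p : ℕ => (p : ℤ) ∣ DT T), (1 : ℝ) / (p : ℝ) ≤
        2 * (r : ℝ) * ((r + r * r) / Real.log z) := mul_le_mul_of_nonneg_left h2 (by positivity)
      _ ≤ Real.log (1 + ε) := by
        rw [div_le_iff₀ hl1] at hzl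
        rw [← mul_div_assoc, div_le_iff₀ hlz]
        linarith

theorem summable_lc (T : Finset (ℤ × ℤ)) (hD : DT T ≠ 0) (hT : ∀ f ∈ T, IsCoprime f.1 f.2) :
    Summable (fun p : Nat.Primes => lc T p - 1) := by
  have hg : Summable (fun p : Nat.Primes => (T.card : ℝ) ^ 2 * (1 / ((p : ℕ) : ℝ) ^ 2)) := by
    apply Summable.mul_left
    exact (Real.summable_one_div_nat_pow.2 (by norm_num : 1 < 2)).comp_injective
      (Subtype.val_injective)
  apply Summable.of_norm_bounded_eventually hg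
  have hfin : {p : Nat.Primes | (p : ℕ) ≤ T.card + (DT T).natAbs}.Finite := by
    apply Set.Finite.of_finite_image (f := (fun p : Nat.Primes => (p : ℕ)))
    · apply (Set.finite_Iic (T.card + (DT T).natAbs)).subset
      rintro _ ⟨p, hp, rfl⟩
      exact hp
    · exact Subtype.val_injective.injOn
  rw [Filter.eventually_cofinite]
  apply hfin.subset
  intro p hp
  simp only [Set.mem_ofPred_eq] at hp ⊢
  by_contra hcon
  push Not at hcon
  apply hp
  have h1 : ¬ ((p : ℕ) : ℤ) ∣ DT T := by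
    intro h
    have h2 : (p : ℕ) ∣ (DT T).natAbs := Int.natCast_dvd.1 h
    have h3 := Nat.le_of_dvd (Int.natAbs_pos.2 hD) h2
    omega
  have h2 := lc_ge T p.2 hT (by omega)
  have h3 := lc_le_one T p.2 h1
  rw [Real.norm_eq_abs, abs_le, one_div]
  constructor
  · linarith
  · have : (0:ℝ) ≤ (T.card : ℝ) ^ 2 * (((p : ℕ) : ℝ) ^ 2)⁻¹ := by positivity
    linarith

theorem BH_hasProd (T : Finset (ℤ × ℤ)) (hD : DT T ≠ 0) (hT : ∀ f ∈ T, IsCoprime f.1 f.2) :
    HasProd (fun p : Nat.Primes => lc T p) (BH T) := by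
  have := Real.multipliable_one_add_of_summable (summable_lc T hD hT)
  simp only [add_sub_cancel] at this
  exact this.hasProd

/-- truncated product -/
noncomputable def Ez (T : Finset (ℤ × ℤ)) (z : ℕ) : ℝ := ∏ p ∈ (Icc 1 z).filter Nat.Prime, lc T p

lemma Ez_nonneg (T : Finset (ℤ × ℤ)) (z : ℕ) : 0 ≤ Ez T z :=
  prod_nonneg fun _ hp => lc_nonneg T (mem_filter.1 hp).2

/-- the underlying natural number -/
def toN (p : Nat.Primes) : ℕ := (p : ℕ)

lemma toN_inj : Function.Injective toN := fun _ _ h => Nat.Primes.coe_nat_injective h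

lemma prod_toN (F : Finset Nat.Primes) (f : ℕ → ℝ) : ∏ p ∈ F, f p = ∏ p ∈ F.image toN, f p := by
  rw [prod_image (fun a _ b _ hab => toN_inj hab)]
  rfl

/-- the product over the primes `p ≤ Y`, with sets of forms which contain all forms for `p ≤ z`,
against the full singular series -/
theorem part (r : ℕ) (ε : ℝ) (hε : 0 < ε) : ∃ z0 : ℕ, ∀ z : ℕ, z0 ≤ z → ∀ H : ℝ, 1 ≤ H → Real.log (2 * H ^ 2) ≤ z →
    ∀ T : Finset (ℤ × ℤ), T.card = r → DT T ≠ 0 → (∀ f ∈ T, IsCoprime f.1 f.2) →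
      (∀ f ∈ T, |(f.1 : ℝ)| ≤ H ∧ |(f.2 : ℝ)| ≤ H) →
      ∀ Y : ℕ, z ≤ Y → ∀ S : ℕ → Finset (ℤ × ℤ), (∀ p, S p ⊆ T) → (∀ p ≤ z, S p = T) →
      |∏ p ∈ (Icc 1 Y).filter Nat.Prime, lc (S p) p - BH T| ≤ ε * BH T := by
  classical
  set η : ℝ := min (ε / 4) (1 / 2) with hη
  have hη0 : 0 < η := lt_min (by positivity) (by norm_num)
  have hη1 : η ≤ 1 / 2 := min_le_right _ _
  have hη2 : η ≤ ε / 4 := min_le_left _ _
  obtain ⟨z0, hz0⟩ := tail_key r η hη0
  refine ⟨z0, fun z hz H hH hlog T hTr hD hT hTH Y hY S hS hSz => ?_⟩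
  have key := hz0 z hz H hH hlog T hTr hD hT hTH
  have hE := Ez_nonneg T z
  -- the full product
  have hprod := BH_hasProd T hD hT
  rw [HasProd] at hprod
  have hfin : {p : Nat.Primes | (p : ℕ) ≤ z}.Finite := by
    apply Set.Finite.of_finite_image (f := (fun p : Nat.Primes => (p : ℕ)))
    · apply (Set.finite_Iic z).subset
      rintro _ ⟨p, hp, rfl⟩
      exact hp
    · exact Subtype.val_injective.injOn
  obtain ⟨F0, hF0⟩ : ∃ F0 : Finset Nat.Primes, ∀ p, p ∈ F0 ↔ (p : ℕ) ≤ z := ⟨hfin.toFinset, fun p => by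
    rw [Set.Finite.mem_toFinset]; rfl⟩
  have hF0' : ∏ p ∈ F0, lc T p = Ez T z := by
    unfold Ez
    have h1 : F0.image toN = (Icc 1 z).filter Nat.Prime := by
      ext p
      rw [mem_image, mem_filter, mem_Icc]
      constructor
      · rintro ⟨q, hq, rfl⟩
        exact ⟨⟨q.2.one_le, (hF0 q).1 hq⟩, q.2⟩
      · rintro ⟨⟨_, h⟩, hp⟩
        exact ⟨⟨p, hp⟩, (hF0 _).2 h, rfl⟩
    rw [prod_toN F0 (fun p => lc T p), h1]
  have hbig : ∀ F : Finset Nat.Primes, 1 - η ≤ ∏ p ∈ F \ F0, lc T p ∧ ∏ p ∈ F \ F0, lc T p ≤ 1 + η := by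
    intro F
    rw [prod_toN (F \ F0) (fun p => lc T p)]
    refine key ((F \ F0).image toN) ?_ (fun _ => T) (fun _ => Finset.Subset.refl _)
    intro p hp
    rw [mem_image] at hp
    obtain ⟨q, hq, rfl⟩ := hp
    refine ⟨q.2, ?_⟩
    rw [Finset.mem_sdiff, hF0] at hq
    exact not_le.1 hq.2
  have b1 : (1 - η) * Ez T z ≤ BH T := by
    refine ge_of_tendsto hprod ?_
    filter_upwards [eventually_ge_atTop F0] with F hF
    rw [← prod_sdiff (show F0 ⊆ F from hF), hF0']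
    exact mul_le_mul_of_nonneg_right (hbig F).1 hE
  have b2 : BH T ≤ (1 + η) * Ez T z := by
    refine le_of_tendsto hprod ?_
    filter_upwards [eventually_ge_atTop F0] with F hF
    rw [← prod_sdiff (show F0 ⊆ F from hF), hF0']
    exact mul_le_mul_of_nonneg_right (hbig F).2 hE
  -- the partial product
  have hsub : (Icc 1 z).filter Nat.Prime ⊆ (Icc 1 Y).filter Nat.Prime :=
    filter_subset_filter _ (Icc_subset_Icc_right hY)
  have hsp : ∏ p ∈ (Icc 1 Y).filter Nat.Prime, lc (S p) p =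
      (∏ p ∈ (Icc 1 Y).filter Nat.Prime \ (Icc 1 z).filter Nat.Prime, lc (S p) p) * Ez T z := by
    rw [← prod_sdiff hsub]
    congr 1
    unfold Ez
    apply prod_congr rfl
    intro p hp
    rw [mem_filter, mem_Icc] at hp
    rw [hSz p hp.1.2]
  obtain ⟨c1, c2⟩ := key ((Icc 1 Y).filter Nat.Prime \ (Icc 1 z).filter Nat.Prime) (by
    intro p hp
    rw [Finset.mem_sdiff, mem_filter, mem_filter, mem_Icc, mem_Icc] at hp
    refine ⟨hp.1.2, ?_⟩
    by_contra h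
    exact hp.2 ⟨⟨hp.1.1.1, by omega⟩, hp.1.2⟩) S hS
  rw [hsp]
  set E := Ez T z
  set P := ∏ p ∈ (Icc 1 Y).filter Nat.Prime \ (Icc 1 z).filter Nat.Prime, lc (S p) p
  have hBH : 0 ≤ BH T := le_trans (mul_nonneg (by linarith) hE) b1
  have d1 : (1 - η) * E ≤ P * E := mul_le_mul_of_nonneg_right c1 hE
  have d2 : P * E ≤ (1 + η) * E := mul_le_mul_of_nonneg_right c2 hE
  have d3 : E ≤ 2 * BH T := by nlinarith
  have d4 : η * E ≤ ε / 4 * (2 * BH T) := mul_le_mul hη2 d3 hE (by positivity)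
  rw [abs_le]
  constructor
  · nlinarith
  · nlinarith

end Pool.Agent.H320RM.LF
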