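import Mathlib
import Pool.Agent.R960.Fam.Law
import Pool.Agent.H305R2.MertensE

set_option autoImplicit false
set_option linter.unusedSectionVars false

/-! The density profile of the models with a growing sieve.  The lemmas are those of
`Pool.Agent.N233.GM.Law`, repeated in order not to import the whole development. -/

namespace Pool.Agent.H320RM.Mod

open Finset Filter Asymptotics MeasureTheory
open Pool.Agent.R528.RM
open scoped Topology

lemma log_tendsto : Tendsto (fun n : ℕ => Real.log (n : ℝ)) atTop atTop :=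
  Real.tendsto_log_atTop.comp tendsto_natCast_atTop_atTop

/-- `m` has no prime factor at most `z m` -/
def Rough (z : ℕ → ℕ) (m : ℕ) : Prop := ∀ q, q.Prime → q ≤ z m → ¬ q ∣ m

/-- `∏_{q ≤ x} (1 - 1 / q)⁻¹` -/
noncomputable def W (x : ℕ) : ℝ := ∏ q ∈ (Finset.Icc 1 x).filter Nat.Prime, (1 - (q : ℝ)⁻¹)⁻¹

open Classical in
/-- the density `W (z m) / log m` at the rough numbers -/
noncomputable def rho (z : ℕ → ℕ) (m : ℕ) : ℝ := if Rough z m then W (z m) / Real.log m else 0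

lemma fac_ge (q : ℕ) (hq : q.Prime) : 1 ≤ (1 - (q : ℝ)⁻¹)⁻¹ := by
  have hq2 : (1 : ℝ) < q := by exact_mod_cast hq.one_lt
  have h1 : (q : ℝ)⁻¹ < 1 := inv_lt_one_of_one_lt₀ hq2
  have h2 : 0 < (q : ℝ)⁻¹ := by positivity
  rw [one_le_inv₀ (by linarith)]
  linarith

lemma W_ge (x : ℕ) : 1 ≤ W x := by
  unfold W
  have : ∀ q ∈ (Finset.Icc 1 x).filter Nat.Prime, 1 ≤ (1 - (q : ℝ)⁻¹)⁻¹ :=
    fun q hq => fac_ge q (mem_filter.1 hq).2
  calc (1 : ℝ) = ∏ q ∈ (Finset.Icc 1 x).filter Nat.Prime, (1 : ℝ) := by simp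
    _ ≤ _ := Finset.prod_le_prod (fun _ _ => zero_le_one) this

lemma W_mono {x y : ℕ} (h : x ≤ y) : W x ≤ W y := by
  unfold W
  have hsub : (Finset.Icc 1 x).filter Nat.Prime ⊆ (Finset.Icc 1 y).filter Nat.Prime :=
    filter_subset_filter _ (Finset.Icc_subset_Icc_right h)
  rw [← Finset.prod_sdiff hsub]
  have h1 : (1 : ℝ) ≤ ∏ q ∈ (Finset.Icc 1 y).filter Nat.Prime \ (Finset.Icc 1 x).filter Nat.Prime, (1 - (q : ℝ)⁻¹)⁻¹ := by
    calc (1 : ℝ) = ∏ q ∈ (Finset.Icc 1 y).filter Nat.Prime \ (Finset.Icc 1 x).filter Nat.Prime, (1 : ℝ) := by simp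
      _ ≤ _ := Finset.prod_le_prod (fun _ _ => zero_le_one)
        fun q hq => fac_ge q (mem_filter.1 (Finset.mem_sdiff.1 hq).1).2
  have h2 : (0 : ℝ) ≤ ∏ q ∈ (Finset.Icc 1 x).filter Nat.Prime, (1 - (q : ℝ)⁻¹)⁻¹ :=
    prod_nonneg fun q hq => le_trans zero_le_one (fac_ge q (mem_filter.1 hq).2)
  nlinarith

lemma W_bound : ∃ C₁ C₂ : ℝ, 0 < C₁ ∧ 0 < C₂ ∧ ∀ x : ℕ, W x ≤ C₁ + C₂ * Real.log x := by
  have h := Pool.Agent.H305R2.mertens_three
  have h1 : ∀ᶠ N : ℕ in atTop, W N / Real.log N < Real.exp Real.eulerMascheroniConstant + 1 :=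
    h.eventually (gt_mem_nhds (by linarith))
  obtain ⟨N0, hN0⟩ := eventually_atTop.1 (h1.and (log_tendsto.eventually_gt_atTop 0))
  refine ⟨W N0, Real.exp Real.eulerMascheroniConstant + 1, lt_of_lt_of_le one_pos (W_ge _), by positivity, ?_⟩
  intro x
  have hx0 : 0 ≤ Real.log (x : ℝ) := Real.log_natCast_nonneg x
  rcases le_total x N0 with h2 | h2
  · have := W_mono h2
    have : 0 ≤ (Real.exp Real.eulerMascheroniConstant + 1) * Real.log x := by positivity
    linarith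
  · obtain ⟨g1, g2⟩ := hN0 x h2
    rw [div_lt_iff₀ g2] at g1
    have := W_ge N0
    linarith

/-- the densities stay below one when the sieve stays below a small power -/
lemma W_small : ∃ δ : ℝ, 0 < δ ∧ ∀ z : ℕ → ℕ, (∀ᶠ n : ℕ in atTop, (z n : ℝ) ≤ (n : ℝ) ^ δ) →
    ∀ᶠ n : ℕ in atTop, W (z n) / Real.log n < 1 := by
  obtain ⟨C₁, C₂, hC₁, hC₂, hW⟩ := W_bound
  refine ⟨1 / (2 * C₂), by positivity, fun z hz => ?_⟩
  filter_upwards [hz, log_tendsto.eventually_gt_atTop (4 * C₁), eventually_gt_atTop 1] with n h1 h2 h3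
  have hn : (1 : ℝ) < n := by exact_mod_cast h3
  have hL : 0 < Real.log n := Real.log_pos hn
  rw [div_lt_one hL]
  have h4 : Real.log (z n) ≤ 1 / (2 * C₂) * Real.log n := by
    rcases Nat.eq_zero_or_pos (z n) with h5 | h5
    · rw [h5, Nat.cast_zero, Real.log_zero]
      positivity
    · have h6 : (0 : ℝ) < z n := by exact_mod_cast h5
      have h7 := Real.log_le_log h6 h1
      rwa [Real.log_rpow (by linarith)] at h7
  have h5 := hW (z n)
  have h6 : C₂ * Real.log (z n) ≤ 1 / 2 * Real.log n := by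
    calc C₂ * Real.log (z n) ≤ C₂ * (1 / (2 * C₂) * Real.log n) := by gcongr
      _ = 1 / 2 * Real.log n := by field_simp
  linarith

open Classical in
/-- the density, at most one -/
noncomputable def rho1 (z : ℕ → ℕ) (m : ℕ) : ℝ := if Rough z m then min 1 (W (z m) / Real.log m) else 0

lemma rho1_bounds (z : ℕ → ℕ) (n : ℕ) : 0 ≤ rho1 z n ∧ rho1 z n ≤ 1 := by
  unfold rho1
  have h1 : 0 ≤ W (z n) := zero_le_one.trans (W_ge _)
  have h2 := Real.log_natCast_nonneg n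
  split_ifs
  · exact ⟨by positivity, min_le_left _ _⟩
  · exact ⟨le_rfl, zero_le_one⟩

lemma rho1_eq (z : ℕ → ℕ) (n : ℕ) (h : W (z n) / Real.log n < 1) : rho1 z n = rho z n := by
  unfold rho1 rho
  rw [min_eq_right h.le]

section

variable {Ω : Type} {m0 : MeasurableSpace Ω} {μ : Measure Ω} [IsProbabilityMeasure μ]
  {ℱ : Filtration ℕ m0} {A : ℕ → Set Ω}

/-- the densities follow the profile -/
lemma profile (z : ℕ → ℕ) (hV : ∀ᶠ n : ℕ in atTop, W (z n) / Real.log n < 1)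
    (hcop : ∀ n, ¬ Rough z n → A n = ∅)
    (hd : ∀ᵐ ω ∂μ, Tendsto (fun n : ℕ => Pool.Agent.R528.RM.dens μ ℱ A n ω * Real.log n / W (z (n + 1)))
      (atTop ⊓ 𝓟 {n : ℕ | Rough z (n + 1)}) (𝓝 1)) :
    ∀ᵐ ω ∂μ, ∀ ε : ℝ, 0 < ε → ∀ᶠ n : ℕ in atTop,
      |Pool.Agent.R528.RM.dens μ ℱ A n ω - rho1 z (n + 1)| ≤ ε * rho1 z (n + 1) := by
  have hz' : ∀ᵐ ω ∂μ, ∀ n, ¬ Rough z (n + 1) → Pool.Agent.R528.RM.dens μ ℱ A n ω = 0 := by
    rw [ae_all_iff]
    intro n
    by_cases h : Rough z (n + 1)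
    · exact Eventually.of_forall fun ω h2 => absurd h h2
    · have h1 : Pool.Agent.R528.RM.dens μ ℱ A n =ᵐ[μ] 0 := by
        unfold Pool.Agent.R528.RM.dens
        rw [hcop _ h, Set.indicator_empty]
        rw [show (fun _ : Ω => (0 : ℝ)) = 0 from rfl, condExp_zero]
      filter_upwards [h1] with ω hω _
      exact hω
  filter_upwards [hz', hd] with ω hω1 hω2 ε hε
  have h1 : Tendsto (fun n : ℕ => Pool.Agent.R528.RM.dens μ ℱ A n ω * Real.log ((n + 1 : ℕ) : ℝ) / W (z (n + 1)))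
      (atTop ⊓ 𝓟 {n : ℕ | Rough z (n + 1)}) (𝓝 1) := by
    have h2 := hω2.mul (log_succ_ratio.mono_left (inf_le_left : atTop ⊓ 𝓟 {n : ℕ | Rough z (n + 1)} ≤ atTop))
    rw [mul_one] at h2
    refine h2.congr' ?_
    apply Filter.Eventually.filter_mono inf_le_left
    filter_upwards [eventually_gt_atTop 1] with n hn
    have hn' : (1 : ℝ) < n := by exact_mod_cast hn
    have hl : 0 < Real.log (n : ℝ) := Real.log_pos hn'
    field_simp
  have h2 := (Metric.tendsto_nhds.1 h1) ε hε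
  rw [eventually_inf_principal] at h2
  have h3 : ∀ᶠ n : ℕ in atTop, W (z (n + 1)) / Real.log ((n + 1 : ℕ) : ℝ) < 1 :=
    (tendsto_add_atTop_nat 1).eventually hV
  filter_upwards [h2, h3, eventually_gt_atTop 2] with n hn hn2 hn3
  by_cases hcp : Rough z (n + 1)
  · have h4 := hn hcp
    have hl : 0 < Real.log ((n + 1 : ℕ) : ℝ) := Real.log_pos (by push_cast; have : (2 : ℝ) < n := by exact_mod_cast hn3
                                                                 linarith)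
    have hV : 0 < W (z (n + 1)) := lt_of_lt_of_le one_pos (W_ge _)
    have e1 : rho1 z (n + 1) = W (z (n + 1)) / Real.log ((n + 1 : ℕ) : ℝ) := by
      unfold rho1
      rw [if_pos hcp, min_eq_right hn2.le]
    rw [e1]
    rw [Real.dist_eq] at h4
    have e2 : Pool.Agent.R528.RM.dens μ ℱ A n ω - W (z (n + 1)) / Real.log ((n + 1 : ℕ) : ℝ) =
        (Pool.Agent.R528.RM.dens μ ℱ A n ω * Real.log ((n + 1 : ℕ) : ℝ) / W (z (n + 1)) - 1) * (W (z (n + 1)) / Real.log ((n + 1 : ℕ) : ℝ)) := by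
      field_simp
    have h5 : 0 < W (z (n + 1)) / Real.log ((n + 1 : ℕ) : ℝ) := by positivity
    rw [e2, abs_mul, abs_of_pos h5]
    exact mul_le_mul_of_nonneg_right h4.le h5.le
  · rw [hω1 n hcp]
    have e1 : rho1 z (n + 1) = 0 := by
      unfold rho1
      rw [if_neg hcp]
    rw [e1]
    simp

end


end Pool.Agent.H320RM.Mod
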