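import Mathlib
import Pool.Agent.H20R2.EN.FLem

set_option autoImplicit false
set_option linter.unusedVariables false
set_option linter.unusedSimpArgs false

/-! Counting integers in an interval which avoid systems of residue classes modulo all primes up to
`y` (the fundamental lemma of the sieve, by Brun-Hooley).  The proofs of `count_class`, `count_sys`
and `sys_fund` are those of `Pool.Agent.H373R2.T7`; they are repeated here in order not to import
the whole development. -/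

namespace Pool.Agent.H320RM.Sv
open Finset

lemma count_class (x q c : ℕ) (hq : 1 ≤ q) :
    |(((Icc 1 x).filter (fun n => n ≡ c [MOD q])).card : ℝ) - x / q| ≤ 1 := by
  have e : Icc 1 x = Ioc 0 x := by ext; simp [Nat.lt_iff_add_one_le]
  have h := Nat.Ioc_filter_modEq_card 0 x (show 0 < q by omega) c
  rw [e]
  have hq0 : (0 : ℚ) < q := by exact_mod_cast (by omega : 0 < q)
  set A : ℤ := ⌊((x : ℚ) - c) / q⌋ with hA
  set B : ℤ := ⌊(((0 : ℕ) : ℚ) - c) / q⌋ with hB
  have hAB : B ≤ A := by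
    rw [hA, hB]
    apply Int.floor_le_floor
    apply div_le_div_of_nonneg_right _ hq0.le
    have : (0 : ℚ) ≤ x := Nat.cast_nonneg _
    push_cast
    linarith
  rw [max_eq_left (by omega)] at h
  have h1 : (((Ioc 0 x).filter (fun n => n ≡ c [MOD q])).card : ℝ) = ((A - B : ℤ) : ℝ) := by
    rw [← h]; push_cast; rfl
  rw [h1]
  have a1 := Int.floor_le (((x : ℚ) - c) / q)
  have a2 := Int.lt_floor_add_one (((x : ℚ) - c) / q)
  have b1 := Int.floor_le ((((0 : ℕ) : ℚ) - c) / q)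
  have b2 := Int.lt_floor_add_one ((((0 : ℕ) : ℚ) - c) / q)
  rw [← hA] at a1 a2
  rw [← hB] at b1 b2
  have h3 : ((x : ℚ) - c) / q - (((0 : ℕ) : ℚ) - c) / q = x / q := by
    push_cast; field_simp; ring
  have h4 : |((A - B : ℤ) : ℚ) - x / q| ≤ 1 := by
    push_cast
    rw [abs_le]
    constructor <;> linarith
  have h5 : ((|((A - B : ℤ) : ℚ) - x / q| : ℚ) : ℝ) ≤ ((1 : ℚ) : ℝ) := by exact_mod_cast h4
  push_cast at h5 ⊢
  exact h5

/-- joint distribution in residue classes -/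
theorem count_sys (A : ℕ → ℕ → Prop) [∀ p a, Decidable (A p a)] (x : ℕ) (S : Finset ℕ) (hS : ∀ p ∈ S, p.Prime) :
    ∀ q : ℕ, 1 ≤ q → (∀ p ∈ S, ¬ p ∣ q) → ∀ c : ℕ,
    |(((Icc 1 x).filter (fun n => n ≡ c [MOD q] ∧ ∀ p ∈ S, A p (n % p))).card : ℝ) -
      (x : ℝ) / q * ∏ p ∈ S, ((((range p).filter (fun a => A p a)).card : ℝ) / p)| ≤
      ∏ p ∈ S, (((range p).filter (fun a => A p a)).card : ℝ) := by
  induction S using Finset.induction_on with
  | empty =>
    intro q hq _ c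
    have h := count_class x q c hq
    simpa using h
  | insert p S hp ih =>
    intro q hq hdq c
    have hpp := hS p (mem_insert_self _ _)
    have hS' : ∀ p' ∈ S, p'.Prime := fun p' h => hS p' (mem_insert_of_mem h)
    have hpq : q.Coprime p := by
      rw [Nat.coprime_comm]
      exact (Nat.Prime.coprime_iff_not_dvd hpp).2 (hdq p (mem_insert_self _ _))
    have hp0 : (0 : ℝ) < p := by exact_mod_cast hpp.pos
    have hq0 : (0 : ℝ) < q := by exact_mod_cast hq
    rw [prod_insert hp, prod_insert hp]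
    set ρ := (range p).filter (fun a => A p a) with hρ
    -- fibres
    have h1 : ((Icc 1 x).filter (fun n => n ≡ c [MOD q] ∧ ∀ p' ∈ insert p S, A p' (n % p'))).card =
        ∑ a ∈ ρ, ((Icc 1 x).filter (fun n => n ≡ (Nat.chineseRemainder hpq c a : ℕ) [MOD (q * p)] ∧
          ∀ p' ∈ S, A p' (n % p'))).card := by
      rw [card_eq_sum_card_fiberwise (f := fun n => n % p) (t := ρ)]
      · apply sum_congr rfl
        intro a ha
        rw [hρ, mem_filter, mem_range] at ha
        congr 1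
        ext n
        simp only [mem_filter, mem_insert, forall_eq_or_imp]
        have hcr : n ≡ (Nat.chineseRemainder hpq c a : ℕ) [MOD (q * p)] ↔ n ≡ c [MOD q] ∧ n ≡ a [MOD p] := by
          constructor
          · intro h
            have k1 := (Nat.chineseRemainder hpq c a).2.1
            have k2 := (Nat.chineseRemainder hpq c a).2.2
            exact ⟨(h.of_mul_right p).trans k1, (h.of_mul_left q).trans k2⟩
          · rintro ⟨h1, h2⟩
            exact Nat.chineseRemainder_modEq_unique hpq h1 h2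
        have hmod : n ≡ a [MOD p] ↔ n % p = a := by
          unfold Nat.ModEq
          rw [Nat.mod_eq_of_lt ha.1]
        rw [hcr, hmod]
        constructor
        · rintro ⟨⟨h1, h2, h3, h4⟩, h5⟩
          exact ⟨h1, ⟨h2, h5⟩, h4⟩
        · rintro ⟨h1, ⟨h2, h5⟩, h4⟩
          exact ⟨⟨h1, h2, by rw [h5]; exact ha.2, h4⟩, h5⟩
      · intro n hn
        simp only [coe_filter, mem_Icc, mem_insert, forall_eq_or_imp, Set.mem_ofPred_eq] at hn
        rw [hρ]
        simp only [coe_filter, mem_range, Set.mem_ofPred_eq]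
        exact ⟨Nat.mod_lt _ hpp.pos, hn.2.2.1⟩
    rw [h1]
    push_cast
    have h2 : (x : ℝ) / q * (((ρ.card : ℝ) / p) * ∏ p' ∈ S, ((((range p').filter (fun a => A p' a)).card : ℝ) / p')) =
        ∑ a ∈ ρ, (x : ℝ) / ((q * p : ℕ) : ℝ) * ∏ p' ∈ S, ((((range p').filter (fun a => A p' a)).card : ℝ) / p') := by
      rw [sum_const, nsmul_eq_mul]
      push_cast
      rw [← div_div]
      ring
    rw [h2, ← sum_sub_distrib]
    refine (abs_sum_le_sum_abs _ _).trans ?_
    have h3 : ∀ a ∈ ρ, |(((Icc 1 x).filter (fun n => n ≡ (Nat.chineseRemainder hpq c a : ℕ) [MOD (q * p)] ∧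
          ∀ p' ∈ S, A p' (n % p'))).card : ℝ) -
        (x : ℝ) / ((q * p : ℕ) : ℝ) * ∏ p' ∈ S, ((((range p').filter (fun a => A p' a)).card : ℝ) / p')| ≤
        ∏ p' ∈ S, (((range p').filter (fun a => A p' a)).card : ℝ) := by
      intro a _
      apply ih hS' (q * p) (Nat.mul_pos hq hpp.pos)
      intro p' hp' hd
      have hp'p := hS' p' hp'
      rcases (Nat.Prime.dvd_mul hp'p).1 hd with h | h
      · exact hdq p' (mem_insert_of_mem hp') h
      · rw [Nat.prime_dvd_prime_iff_eq hp'p hpp] at h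
        exact hp (h ▸ hp')
    refine (sum_le_sum h3).trans ?_
    rw [sum_const, nsmul_eq_mul]


/-- primes up to `z` -/
def pz (z : ℕ) : Finset ℕ := (Icc 1 z).filter Nat.Prime

lemma mem_pz {z p : ℕ} : p ∈ pz z ↔ p ≤ z ∧ p.Prime := by
  unfold pz
  rw [mem_filter, mem_Icc]
  constructor
  · rintro ⟨⟨_, h⟩, h2⟩; exact ⟨h, h2⟩
  · rintro ⟨h, h2⟩; exact ⟨⟨h2.one_le, h⟩, h2⟩

open Classical in
/-- the number of classes -/
noncomputable def nuB (Q : ℕ → ℕ → Prop) (p : ℕ) : ℕ := ((range p).filter (fun r => Q p r)).card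

/-- periodic conditions with few classes -/
structure PerB (Q : ℕ → ℕ → Prop) (c : ℕ) : Prop where
  per : ∀ p n, Q p n ↔ Q p (n % p)
  few : ∀ p, p.Prime → nuB Q p ≤ c

lemma nuB_le (Q : ℕ → ℕ → Prop) (p : ℕ) : nuB Q p ≤ p := by
  classical
  unfold nuB
  exact (card_filter_le _ _).trans (by simp)

/-- the exponent of the double power -/
def JJ (y : ℕ) : ℕ := Nat.log 2 (Nat.log 2 y) + 1

lemma JJ_lt (y : ℕ) : y < 2 ^ 2 ^ JJ y := by
  have h1 : y < 2 ^ (Nat.log 2 y + 1) := Nat.lt_pow_succ_log_self (by norm_num) y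
  have h2 : Nat.log 2 y + 1 ≤ 2 ^ JJ y := Nat.lt_pow_succ_log_self (by norm_num) _
  exact h1.trans_le (Nat.pow_le_pow_right (by norm_num) h2)

lemma JJ_pow (y : ℕ) (hy : 2 ≤ y) : 2 ^ JJ y ≤ 2 * Nat.log 2 y := by
  have h0 : Nat.log 2 y ≠ 0 := by
    have : 0 < Nat.log 2 y := Nat.log_pos (by norm_num) hy
    omega
  unfold JJ
  rw [pow_succ]
  have := Nat.pow_log_le_self 2 h0
  omega

lemma JJ_le (y : ℕ) (hy : 2 ≤ y) : 2 ^ 2 ^ JJ y ≤ y ^ 2 := by
  calc 2 ^ 2 ^ JJ y ≤ 2 ^ (2 * Nat.log 2 y) := Nat.pow_le_pow_right (by norm_num) (JJ_pow y hy)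
    _ = (2 ^ Nat.log 2 y) ^ 2 := by rw [← pow_mul, mul_comm]
    _ ≤ y ^ 2 := Nat.pow_le_pow_left (Nat.pow_log_le_self 2 (by omega)) 2

lemma JJ_small (y : ℕ) (hy : 3 ≤ y) : JJ y + 2 ≤ 2 * y := by
  unfold JJ
  have h1 : Nat.log 2 (Nat.log 2 y) ≤ Nat.log 2 y := Nat.log_le_self _ _
  have h2 : Nat.log 2 y ≤ y := Nat.log_le_self _ _
  omega

lemma prod_inj (S S' : Finset ℕ) (hS : ∀ p ∈ S, p.Prime) (hS' : ∀ p ∈ S', p.Prime) (h : ∏ p ∈ S, p = ∏ p ∈ S', p) : S = S' := by
  ext p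
  constructor
  · intro hp
    have h1 : p ∣ ∏ p ∈ S', p := h ▸ dvd_prod_of_mem _ hp
    obtain ⟨p', hp', hd⟩ := (Prime.dvd_finsetProd_iff (hS p hp).prime _).1 h1
    rw [Nat.prime_dvd_prime_iff_eq (hS p hp) (hS' p' hp')] at hd
    exact hd ▸ hp'
  · intro hp
    have h1 : p ∣ ∏ p ∈ S, p := h.symm ▸ dvd_prod_of_mem _ hp
    obtain ⟨p', hp', hd⟩ := (Prime.dvd_finsetProd_iff (hS' p hp).prime _).1 h1
    rw [Nat.prime_dvd_prime_iff_eq (hS' p hp) (hS p' hp')] at hd
    exact hd ▸ hp'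

set_option maxHeartbeats 1000000 in
open Classical in
theorem sys_fund (c : ℕ) (hc : 1 ≤ c) (ε : ℝ) (hε : 0 < ε) : ∃ K x0 : ℕ, 1 ≤ K ∧ ∀ x y : ℕ, x0 ≤ y → y ^ K ≤ x →
    ∀ Q : ℕ → ℕ → Prop, PerB Q c → ∀ X : ℕ, |((((Icc 1 X).filter (fun n : ℕ => ∀ p ∈ pz y, ¬ Q p n)).card : ℕ) : ℝ) -
      X * ∏ p ∈ pz y, (1 - (nuB Q p : ℝ) / p)| ≤ ε * (X * ∏ p ∈ pz y, (1 - (nuB Q p : ℝ) / p)) + √(x : ℝ) := by
  obtain ⟨C0, hC0, hFL⟩ := Pool.Agent.H20R2.fLem c
  obtain ⟨b1, hb1⟩ := exists_pow_lt_of_lt_one hε (show (1 / 2 : ℝ) < 1 by norm_num)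
  set b := max C0 b1 with hb
  have hbC : C0 ≤ b := le_max_left _ _
  have hb1' : 1 ≤ b := hC0.trans hbC
  have hbε : (1 / 2 : ℝ) ^ b ≤ ε := (pow_le_pow_of_le_one (by norm_num) (by norm_num) (le_max_right _ _)).trans hb1.le
  set z0 := C0 + c with hz0
  set K0 : ℕ := ∏ p ∈ pz z0, p with hK0
  have hK01 : 1 ≤ K0 := Nat.pos_of_ne_zero (prod_ne_zero_iff.2 fun p hp => (mem_pz.1 hp).2.ne_zero)
  have hCb : 1 ≤ C0 * b := Nat.mul_pos hC0 hb1'
  refine ⟨16 * (C0 * b), max (2 * K0) (z0 + 3), by omega, fun x y hy hyx Q hQ X => ?_⟩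
  have hyK : 2 * K0 ≤ y := le_trans (le_max_left _ _) hy
  have hyz : z0 + 3 ≤ y := le_trans (le_max_right _ _) hy
  set J := JJ y with hJ
  set Y : ℕ := 2 ^ 2 ^ J with hY
  have hyY : y < Y := JJ_lt y
  have hYy : Y ≤ y ^ 2 := JJ_le y (by omega)
  set D : ℕ := Y ^ (C0 * b) with hD
  set P : Finset ℕ := (pz y).filter (fun p => z0 < p) with hP
  have hPp : ∀ p ∈ P, p.Prime ∧ z0 < p ∧ p ≤ Y := by
    intro p hp
    rw [hP, mem_filter] at hp
    exact ⟨(mem_pz.1 hp.1).2, hp.2, ((mem_pz.1 hp.1).1.trans hyY.le)⟩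
  have hpzy : pz y = pz z0 ∪ P := by
    ext p
    rw [mem_union, hP, mem_filter, mem_pz, mem_pz]
    constructor
    · rintro ⟨h1, h2⟩
      rcases Nat.lt_or_ge z0 p with h | h
      · exact Or.inr ⟨⟨h1, h2⟩, h⟩
      · exact Or.inl ⟨h, h2⟩
    · rintro (⟨h1, h2⟩ | ⟨h1, _⟩)
      · exact ⟨by omega, h2⟩
      · exact h1
  have hdisj : Disjoint (pz z0) P := by
    rw [disjoint_left]
    intro p hp hp'
    rw [hP, mem_filter] at hp'
    have := (mem_pz.1 hp).1
    omega
  have hpz0 : ∀ p ∈ pz z0, p.Prime := fun p hp => (mem_pz.1 hp).2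
  set A0 : ℝ := ∏ p ∈ pz z0, (1 - (nuB Q p : ℝ) / p) with hA0
  have hfac : ∀ p : ℕ, p.Prime → 0 ≤ 1 - (nuB Q p : ℝ) / p := by
    intro p hp
    have hp0 : (0 : ℝ) < p := by exact_mod_cast hp.pos
    have h1 : (nuB Q p : ℝ) / p ≤ 1 := by rw [div_le_one hp0]; exact_mod_cast nuB_le Q p
    linarith
  have hA00 : 0 ≤ A0 := prod_nonneg fun p hp => hfac p (hpz0 p hp)
  have key := hFL b J z0 P (fun p => (nuB Q p : ℝ) / p) hbC (by omega) hPp (fun p hp => by
      have hp0 : (0 : ℝ) < p := by exact_mod_cast (hPp p hp).1.pos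
      have hp1 : (1 : ℝ) < p := by exact_mod_cast (hPp p hp).1.one_lt
      refine ⟨by positivity, ?_⟩
      apply div_le_div₀ (Nat.cast_nonneg _) (by exact_mod_cast hQ.few p (hPp p hp).1) (by linarith) (by linarith))
    ((Icc 1 X).filter (fun n => ∀ p ∈ pz z0, ¬ Q p n)) (fun _ => (1 : ℝ)) (fun p n => Q p n) (X * A0) (fun _ => (K0 : ℝ) * D)
    (fun _ _ => zero_le_one) (by positivity) (by
      intro T hT hTD
      have hTp : ∀ p ∈ T, p.Prime := fun p hp => (hPp p (hT hp)).1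
      have hdT : Disjoint (pz z0) T := disjoint_of_subset_right hT hdisj
      have h3 := count_sys (fun p a => if p ≤ z0 then ¬ Q p a else Q p a) X (pz z0 ∪ T) (fun p hp => by
        rcases mem_union.1 hp with h | h
        · exact hpz0 p h
        · exact hTp p h) 1 le_rfl (fun p hp hd => by
          have hpp : p.Prime := by
            rcases mem_union.1 hp with h | h
            · exact hpz0 p h
            · exact hTp p h
          exact hpp.one_lt.ne' (Nat.dvd_one.1 hd)) 0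
      have hTz : ∀ p ∈ T, ¬ p ≤ z0 := fun p hp => by have := (hPp p (hT hp)).2.1; omega
      have c1 : ∀ p ∈ pz z0, (((range p).filter (fun a => if p ≤ z0 then ¬ Q p a else Q p a)).card : ℝ) = p - nuB Q p := by
        intro p hp
        simp only [if_pos (mem_pz.1 hp).1]
        have h4 := card_filter_add_card_filter_not (s := range p) (fun a => Q p a)
        rw [card_range] at h4
        have h5 : nuB Q p = ((range p).filter (fun a => Q p a)).card := rfl
        have h6 : nuB Q p + ((range p).filter (fun a => ¬ Q p a)).card = p := by rw [h5]; exact h4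
        have h7 : (nuB Q p : ℝ) + (((range p).filter (fun a => ¬ Q p a)).card : ℝ) = p := by exact_mod_cast h6
        linarith
      have c2 : ∀ p ∈ T, (((range p).filter (fun a => if p ≤ z0 then ¬ Q p a else Q p a)).card : ℝ) = nuB Q p := by
        intro p hp
        simp only [if_neg (hTz p hp)]
        rfl
      rw [prod_union hdT, prod_union hdT] at h3
      have e1 : ∏ p ∈ pz z0, ((((range p).filter (fun a => if p ≤ z0 then ¬ Q p a else Q p a)).card : ℝ) / p) = A0 := by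
        apply prod_congr rfl
        intro p hp
        rw [c1 p hp]
        have hp0 : (p : ℝ) ≠ 0 := by exact_mod_cast (hpz0 p hp).ne_zero
        field_simp
      have e2 : ∏ p ∈ T, ((((range p).filter (fun a => if p ≤ z0 then ¬ Q p a else Q p a)).card : ℝ) / p) = ∏ p ∈ T, ((nuB Q p : ℝ) / p) := by
        apply prod_congr rfl
        intro p hp
        rw [c2 p hp]
      have e3 : ∏ p ∈ pz z0, (((range p).filter (fun a => if p ≤ z0 then ¬ Q p a else Q p a)).card : ℝ) ≤ K0 := by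
        rw [hK0]
        push_cast
        apply prod_le_prod (fun _ _ => Nat.cast_nonneg _)
        intro p hp
        rw [c1 p hp]
        have : (0 : ℝ) ≤ nuB Q p := Nat.cast_nonneg _
        linarith
      have e4 : ∏ p ∈ T, (((range p).filter (fun a => if p ≤ z0 then ¬ Q p a else Q p a)).card : ℝ) ≤ D := by
        have h5 : ∏ p ∈ T, (((range p).filter (fun a => if p ≤ z0 then ¬ Q p a else Q p a)).card : ℝ) ≤ ∏ p ∈ T, (p : ℝ) := by
          apply prod_le_prod (fun _ _ => Nat.cast_nonneg _)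
          intro p hp
          rw [c2 p hp]
          exact_mod_cast nuB_le Q p
        refine h5.trans ?_
        have h6 : ((∏ p ∈ T, p : ℕ) : ℝ) ≤ D := by exact_mod_cast hTD
        push_cast at h6
        exact h6
      rw [e1, e2, Nat.cast_one, div_one] at h3
      have e5 : ∑ m ∈ ((Icc 1 X).filter (fun n => ∀ p ∈ pz z0, ¬ Q p n)).filter (fun m => ∀ p ∈ T, Q p m), (1 : ℝ) =
          (((Icc 1 X).filter (fun n => n ≡ 0 [MOD 1] ∧ ∀ p ∈ pz z0 ∪ T, if p ≤ z0 then ¬ Q p (n % p) else Q p (n % p))).card : ℝ) := by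
        rw [sum_const, nsmul_eq_mul, mul_one, filter_filter]
        congr 2
        apply filter_congr
        intro n _
        constructor
        · rintro ⟨h5, h6⟩
          refine ⟨Nat.modEq_one, fun p hp => ?_⟩
          rcases mem_union.1 hp with h | h
          · rw [if_pos (mem_pz.1 h).1]
            exact fun h7 => h5 p h ((hQ.per p n).2 h7)
          · rw [if_neg (hTz p h)]
            exact (hQ.per p n).1 (h6 p h)
        · rintro ⟨_, h5⟩
          constructor
          · intro p hp h7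
            have h8 := h5 p (mem_union_left _ hp)
            rw [if_pos (mem_pz.1 hp).1] at h8
            exact h8 ((hQ.per p n).1 h7)
          · intro p hp
            have h8 := h5 p (mem_union_right _ hp)
            rw [if_neg (hTz p hp)] at h8
            exact (hQ.per p n).2 h8
      rw [e5, mul_assoc]
      refine h3.trans ?_
      exact mul_le_mul e3 e4 (prod_nonneg fun _ _ => Nat.cast_nonneg _) (Nat.cast_nonneg _))
  have f1 : ∑ m ∈ ((Icc 1 X).filter (fun n => ∀ p ∈ pz z0, ¬ Q p n)).filter (fun m => ∀ p ∈ P, ¬ Q p m), (1 : ℝ) =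
      ((((Icc 1 X).filter (fun n : ℕ => ∀ p ∈ pz y, ¬ Q p n)).card : ℕ) : ℝ) := by
    rw [sum_const, nsmul_eq_mul, mul_one, filter_filter]
    congr 2
    apply filter_congr
    intro n _
    rw [hpzy]
    constructor
    · rintro ⟨h5, h6⟩ p hp
      rcases mem_union.1 hp with h | h
      · exact h5 p h
      · exact h6 p h
    · intro h
      exact ⟨fun p hp => h p (mem_union_left _ hp), fun p hp => h p (mem_union_right _ hp)⟩
  have f2 : (X : ℝ) * A0 * ∏ p ∈ P, (1 - (nuB Q p : ℝ) / p) = X * ∏ p ∈ pz y, (1 - (nuB Q p : ℝ) / p) := by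
    rw [hpzy, prod_union hdisj, mul_assoc]
  rw [f1, f2] at key
  refine key.trans ?_
  have hM0 : 0 ≤ (X : ℝ) * ∏ p ∈ pz y, (1 - (nuB Q p : ℝ) / p) := mul_nonneg (Nat.cast_nonneg _) (prod_nonneg fun p hp => hfac p (mem_pz.1 hp).2)
  apply add_le_add (mul_le_mul_of_nonneg_right hbε hM0)
  -- the error
  rw [sum_const, nsmul_eq_mul]
  have hcard : (P.powerset.filter (fun T : Finset ℕ => ∏ p ∈ T, p ≤ D)).card ≤ D := by
    calc _ ≤ (Icc 1 D).card := by
          apply card_le_card_of_injOn (fun T : Finset ℕ => ∏ p ∈ T, p)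
          · intro T hT
            rw [mem_coe, mem_filter, mem_powerset] at hT
            have h5 : 1 ≤ ∏ p ∈ T, p := Nat.pos_of_ne_zero (prod_ne_zero_iff.2 fun p hp => (hPp p (hT.1 hp)).1.ne_zero)
            exact mem_coe.2 (mem_Icc.2 ⟨h5, hT.2⟩)
          · intro T hT T' hT' h
            rw [mem_coe, mem_filter, mem_powerset] at hT hT'
            exact prod_inj T T' (fun p hp => (hPp p (hT.1 hp)).1) (fun p hp => (hPp p (hT'.1 hp)).1) h
      _ = D := by rw [Nat.card_Icc]; omega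
  have hDy : D ≤ y ^ (2 * (C0 * b)) := by
    calc D ≤ (y ^ 2) ^ (C0 * b) := Nat.pow_le_pow_left hYy _
      _ = _ := by rw [← pow_mul]
  have hJy : J + 2 ≤ 2 * y := JJ_small y (by omega)
  have htot : (J + 2) * (D * (K0 * D)) ≤ y ^ (8 * (C0 * b)) := by
    calc (J + 2) * (D * (K0 * D)) ≤ (2 * y) * (y ^ (2 * (C0 * b)) * (K0 * y ^ (2 * (C0 * b)))) := by gcongr
      _ = (2 * K0) * (y * (y ^ (2 * (C0 * b)) * y ^ (2 * (C0 * b)))) := by ring
      _ ≤ y * (y * (y ^ (2 * (C0 * b)) * y ^ (2 * (C0 * b)))) := Nat.mul_le_mul_right _ hyK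
      _ = y ^ (4 * (C0 * b) + 2) := by
          rw [← pow_add, show 4 * (C0 * b) + 2 = (2 * (C0 * b) + 2 * (C0 * b)) + 2 by ring, pow_add]
          ring
      _ ≤ y ^ (8 * (C0 * b)) := Nat.pow_le_pow_right (by omega) (by omega)
  have hfin : ((J : ℝ) + 2) * (((P.powerset.filter (fun T : Finset ℕ => ∏ p ∈ T, p ≤ D)).card : ℝ) * ((K0 : ℝ) * D)) ≤ ((y ^ (8 * (C0 * b)) : ℕ) : ℝ) := by
    have h5 : (J + 2) * ((P.powerset.filter (fun T : Finset ℕ => ∏ p ∈ T, p ≤ D)).card * (K0 * D)) ≤ y ^ (8 * (C0 * b)) := by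
      refine le_trans ?_ htot
      gcongr
    exact_mod_cast h5
  refine hfin.trans ?_
  apply Real.le_sqrt_of_sq_le
  have h5 : (y ^ (8 * (C0 * b))) ^ 2 ≤ x := by
    rw [← pow_mul]
    refine le_trans (le_of_eq ?_) hyx
    congr 1
    ring
  exact_mod_cast h5


end Pool.Agent.H320RM.Sv
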