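import Mathlib
import Pool.Agent.H320RM.Sieve
import Pool.Agent.H320RM.Loc
import Pool.Agent.H320RM.Mod

set_option autoImplicit false
set_option linter.unusedVariables false

/-! The expected number of `n` in an interval for which all values of given linear forms are chosen, in
models with a growing sieve. -/

namespace Pool.Agent.H320RM.Det

open Finset Filter Pool.Agent.H320RM.Sv Pool.Agent.H320RM.LF Pool.Agent.H320RM.Mod
open scoped Topology

open Classical in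
lemma nuB_shift {Q : ℕ → ℕ → Prop} {c : ℕ} (hQ : PerB Q c) (a p : ℕ) :
    nuB (fun p n => Q p (n + a)) p = nuB Q p := by
  unfold nuB
  have hper : Function.Periodic (Q p) p := by
    intro n
    rw [eq_iff_iff, hQ.per p (n + p), hQ.per p n, Nat.add_mod_right]
  have h1 := Nat.filter_Ico_card_eq_of_periodic a p (Q p) hper
  have h2 := Nat.count_eq_card_filter_range (Q p) p
  rw [← h2, ← h1]
  apply card_bij (fun r _ => r + a)
  · intro r hr
    rw [mem_filter, mem_range] at hr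
    rw [mem_filter, mem_Ico]
    exact ⟨⟨by omega, by omega⟩, hr.2⟩
  · intro r _ s _ h
    omega
  · intro n hn
    rw [mem_filter, mem_Ico] at hn
    refine ⟨n - a, ?_, by omega⟩
    rw [mem_filter, mem_range]
    refine ⟨by omega, ?_⟩
    show Q p (n - a + a)
    rw [show n - a + a = n by omega]
    exact hn.2

open Classical in
theorem sys_Ioc (c : ℕ) (hc : 1 ≤ c) (ε : ℝ) (hε : 0 < ε) : ∃ K x0 : ℕ, 1 ≤ K ∧ ∀ Y : ℕ, x0 ≤ Y →
    ∀ Q : ℕ → ℕ → Prop, PerB Q c → ∀ a b : ℕ, a ≤ b →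
    |(((Ioc a b).filter (fun n : ℕ => ∀ p ∈ pz Y, ¬ Q p n)).card : ℝ) -
      ((b : ℝ) - a) * ∏ p ∈ pz Y, (1 - (nuB Q p : ℝ) / p)| ≤
      ε * (((b : ℝ) - a) * ∏ p ∈ pz Y, (1 - (nuB Q p : ℝ) / p)) + √((Y : ℝ) ^ K) := by
  obtain ⟨K, x0, hK, h⟩ := sys_fund c hc ε hε
  refine ⟨K, x0, hK, fun Y hY Q hQ a b hab => ?_⟩
  have hQ' : PerB (fun p n => Q p (n + a)) c := by
    refine ⟨fun p n => ?_, fun p hp => ?_⟩
    · show Q p (n + a) ↔ Q p (n % p + a)
      rw [hQ.per p (n + a), hQ.per p (n % p + a), Nat.mod_add_mod]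
    · rw [nuB_shift hQ]
      exact hQ.few p hp
  have h1 := h (Y ^ K) Y hY le_rfl _ hQ' (b - a)
  have h2 : ((Icc 1 (b - a)).filter (fun n : ℕ => ∀ p ∈ pz Y, ¬ Q p (n + a))).card =
      ((Ioc a b).filter (fun n : ℕ => ∀ p ∈ pz Y, ¬ Q p n)).card := by
    apply card_bij (fun r _ => r + a)
    · intro r hr
      rw [mem_filter, mem_Icc] at hr
      rw [mem_filter, mem_Ioc]
      exact ⟨⟨by omega, by omega⟩, hr.2⟩
    · intro r _ s _ h
      omega
    · intro n hn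
      rw [mem_filter, mem_Ioc] at hn
      refine ⟨n - a, ?_, by omega⟩
      rw [mem_filter, mem_Icc, show n - a + a = n by omega]
      exact ⟨⟨by omega, by omega⟩, hn.2⟩
  have h3 : ∏ p ∈ pz Y, (1 - (nuB (fun p n => Q p (n + a)) p : ℝ) / p) = ∏ p ∈ pz Y, (1 - (nuB Q p : ℝ) / p) := by
    apply prod_congr rfl
    intro p _
    rw [nuB_shift hQ]
  have h4 : ((b - a : ℕ) : ℝ) = (b : ℝ) - a := by push_cast [Nat.cast_sub hab]; ring
  rw [h2, h3, h4] at h1
  have h5 : ((Y ^ K : ℕ) : ℝ) = (Y : ℝ) ^ K := by push_cast; ring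
  rw [h5] at h1
  exact h1

/-- the value of a form, as a natural number -/
def val (f : ℤ × ℤ) (n : ℕ) : ℕ := (f.1 * n + f.2).toNat

/-- some form with level at least `p` is divisible by `p` -/
def QQ (T : Finset (ℤ × ℤ)) (j : ℤ × ℤ → ℕ) (p n : ℕ) : Prop := ∃ f ∈ T, p ≤ j f ∧ (p : ℤ) ∣ f.1 * n + f.2

lemma dvd_mod (f : ℤ × ℤ) (p n : ℕ) : (p : ℤ) ∣ f.1 * n + f.2 ↔ (p : ℤ) ∣ f.1 * ((n % p : ℕ) : ℤ) + f.2 := by
  have h : f.1 * (n : ℤ) + f.2 = (f.1 * ((n % p : ℕ) : ℤ) + f.2) + (p : ℤ) * (f.1 * ((n / p : ℕ) : ℤ)) := by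
    have h1 : ((n : ℕ) : ℤ) = ((n % p : ℕ) : ℤ) + (p : ℤ) * ((n / p : ℕ) : ℤ) := by
      exact_mod_cast (Nat.mod_add_div n p).symm
    rw [h1]
    ring_nf
  rw [h]
  exact dvd_add_left (Dvd.intro _ rfl)

lemma nuB_QQ (T : Finset (ℤ × ℤ)) (j : ℤ × ℤ → ℕ) (p : ℕ) :
    nuB (QQ T j) p = om (T.filter (fun f => p ≤ j f)) p := by
  classical
  unfold nuB om
  congr 1
  ext n
  rw [mem_filter, mem_filter]
  constructor
  · rintro ⟨h1, f, hf, h2, h3⟩
    exact ⟨h1, f, mem_filter.2 ⟨hf, h2⟩, h3⟩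
  · rintro ⟨h1, f, hf, h3⟩
    rw [mem_filter] at hf
    exact ⟨h1, f, hf.1, hf.2, h3⟩

lemma QQ_per (T : Finset (ℤ × ℤ)) (hT : ∀ f ∈ T, IsCoprime f.1 f.2) (j : ℤ × ℤ → ℕ) : PerB (QQ T j) T.card := by
  refine ⟨fun p n => ?_, fun p hp => ?_⟩
  · unfold QQ
    constructor
    · rintro ⟨f, hf, h1, h2⟩
      exact ⟨f, hf, h1, (dvd_mod f p n).1 h2⟩
    · rintro ⟨f, hf, h1, h2⟩
      exact ⟨f, hf, h1, (dvd_mod f p n).2 h2⟩
  · rw [nuB_QQ]
    exact (om_le _ hp (fun f hf => hT f (mem_filter.1 hf).1)).trans (card_filter_le _ _)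

/-- the identity of Mertens type -/
lemma WP (T : Finset (ℤ × ℤ)) (j : ℤ × ℤ → ℕ) (Y : ℕ) (hj : ∀ f ∈ T, j f ≤ Y) :
    (∏ f ∈ T, W (j f)) * ∏ p ∈ pz Y, (1 - (nuB (QQ T j) p : ℝ) / p) =
      ∏ p ∈ (Icc 1 Y).filter Nat.Prime, lc (T.filter (fun f => p ≤ j f)) p := by
  classical
  have h1 : ∀ f ∈ T, W (j f) = ∏ p ∈ (Icc 1 Y).filter Nat.Prime, (if p ≤ j f then (1 - 1 / (p : ℝ))⁻¹ else 1) := by
    intro f hf
    unfold W
    rw [prod_ite, prod_const_one, mul_one, filter_filter]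
    have h2 : (Icc 1 (j f)).filter Nat.Prime = (Icc 1 Y).filter (fun p => p.Prime ∧ p ≤ j f) := by
      ext p
      rw [mem_filter, mem_filter, mem_Icc, mem_Icc]
      have := hj f hf
      constructor
      · rintro ⟨⟨a, b⟩, c⟩
        exact ⟨⟨a, by omega⟩, c, b⟩
      · rintro ⟨⟨a, b⟩, c, d⟩
        exact ⟨⟨a, d⟩, c⟩
    rw [h2]
    apply prod_congr rfl
    intro p _
    rw [one_div]
  rw [prod_congr rfl h1, Finset.prod_comm, show pz Y = (Icc 1 Y).filter Nat.Prime from rfl, ← prod_mul_distrib]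
  apply prod_congr rfl
  intro p hp
  rw [prod_ite, prod_const_one, mul_one, prod_const, nuB_QQ]
  unfold lc
  rw [inv_pow]
  field_simp

/-- order-convex fibres are intervals -/
lemma fiber_Ioc {γ : Type} [DecidableEq γ] (u v : ℕ) (g : ℕ → γ)
    (hg : ∀ a b c, a ≤ b → b ≤ c → g a = g c → g b = g a) (t : γ) :
    ∃ a b, a ≤ b ∧ (Ioc u v).filter (fun n => g n = t) = Ioc a b := by
  rcases ((Ioc u v).filter (fun n => g n = t)).eq_empty_or_nonempty with h | h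
  · exact ⟨0, 0, le_rfl, by rw [h]; simp⟩
  · set S := (Ioc u v).filter (fun n => g n = t) with hS
    have hmin := S.min'_mem h
    have hmax := S.max'_mem h
    have h0 : u < S.min' h := (mem_Ioc.1 (mem_filter.1 hmin).1).1
    have h01 := S.min'_le _ hmax
    refine ⟨S.min' h - 1, S.max' h, by omega, ?_⟩
    ext n
    rw [mem_Ioc]
    constructor
    · intro hn
      have h1 := S.min'_le n hn
      have h2 := S.le_max' n hn
      exact ⟨by omega, h2⟩
    · rintro ⟨h1, h2⟩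
      have h3 : S.min' h ≤ n := by omega
      rw [hS, mem_filter, mem_Ioc]
      have a1 := mem_filter.1 hmin
      have a2 := mem_filter.1 hmax
      rw [mem_Ioc] at a1 a2
      refine ⟨⟨by omega, by omega⟩, ?_⟩
      rw [hg _ n _ h3 h2 (a1.2.trans a2.2.symm)]
      exact a1.2

lemma val_mono {f : ℤ × ℤ} (hf : 0 ≤ f.1) : Monotone (val f) := by
  intro a b hab
  unfold val
  apply Int.toNat_le_toNat
  have : (a : ℤ) ≤ b := by exact_mod_cast hab
  nlinarith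

lemma val_anti {f : ℤ × ℤ} (hf : f.1 ≤ 0) : Antitone (val f) := by
  intro a b hab
  unfold val
  apply Int.toNat_le_toNat
  have : (a : ℤ) ≤ b := by exact_mod_cast hab
  nlinarith

lemma conv_of {F : ℕ → ℕ} (h : Monotone F ∨ Antitone F) {a b c : ℕ} (h1 : a ≤ b) (h2 : b ≤ c) (h3 : F a = F c) :
    F b = F a := by
  rcases h with h | h
  · exact le_antisymm ((h h2).trans h3.symm.le) (h h1)
  · exact le_antisymm (h h1) (h3.le.trans (h h2))

/-- the key of the fibres -/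
def key (z : ℕ → ℕ) (T : Finset (ℤ × ℤ)) (n : ℕ) : T → ℕ × ℕ := fun f => (z (val f.1 n), Nat.log 2 (val f.1 n))

lemma key_conv {z : ℕ → ℕ} (hz : Monotone z) (T : Finset (ℤ × ℤ)) {a b c : ℕ} (h1 : a ≤ b) (h2 : b ≤ c)
    (h3 : key z T a = key z T c) : key z T b = key z T a := by
  funext f
  have h4 := congrFun h3 f
  unfold key at h4 ⊢
  rw [Prod.mk.injEq] at h4 ⊢
  have hlog : Monotone (Nat.log 2) := Nat.log_monotone
  rcases le_total 0 f.1.1 with hf | hf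
  · exact ⟨conv_of (F := fun n => z (val f.1 n)) (Or.inl (hz.comp (val_mono hf))) h1 h2 h4.1,
      conv_of (F := fun n => Nat.log 2 (val f.1 n)) (Or.inl (hlog.comp (val_mono hf))) h1 h2 h4.2⟩
  · exact ⟨conv_of (F := fun n => z (val f.1 n)) (Or.inr (hz.comp_antitone (val_anti hf))) h1 h2 h4.1,
      conv_of (F := fun n => Nat.log 2 (val f.1 n)) (Or.inr (hlog.comp_antitone (val_anti hf))) h1 h2 h4.2⟩

lemma log_bounds {m l : ℕ} (hm : 1 ≤ m) (hl : Nat.log 2 m = l) : l * Real.log 2 ≤ Real.log m ∧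
    Real.log m ≤ (l + 1 : ℝ) * Real.log 2 := by
  have hm0 : (0 : ℝ) < m := by exact_mod_cast hm
  constructor
  · have h1 : 2 ^ l ≤ m := by rw [← hl]; exact Nat.pow_log_le_self 2 (by omega)
    have h2 : ((2 : ℝ)) ^ l ≤ m := by exact_mod_cast h1
    have h3 := Real.log_le_log (by positivity) h2
    rwa [Real.log_pow] at h3
  · have h1 : m < 2 ^ (l + 1) := by rw [← hl]; exact Nat.lt_pow_succ_log_self (by norm_num) m
    have h2 : (m : ℝ) ≤ (2 : ℝ) ^ (l + 1) := by exact_mod_cast h1.le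
    have h3 := Real.log_le_log hm0 h2
    rw [Real.log_pow] at h3
    push_cast at h3
    exact h3

end Pool.Agent.H320RM.Det
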