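import Mathlib
import Pool.Agent.H320RM.Det

set_option autoImplicit false
set_option linter.unusedVariables false

/-! The expected number of `n` in an interval for which all values of given linear forms are chosen:
the sum over the fibres. -/

namespace Pool.Agent.H320RM.Det

open Finset Filter Pool.Agent.H320RM.Sv Pool.Agent.H320RM.LF Pool.Agent.H320RM.Mod
open scoped Topology

/-- the arithmetic of one fibre -/
lemma fib_arith {ε η σ len P Wj A B N E0 S1 L1 : ℝ} (hε : 0 < ε) (hε1 : ε ≤ 1) (hη : 0 ≤ η) (hη1 : η ≤ 1)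
    (hσ : 0 ≤ σ) (hlen : 0 ≤ len) (hP : 0 ≤ P) (hWj : 0 ≤ Wj) (hB : 0 ≤ B) (hBA : B ≤ A) (hAB : A ≤ (1 + ε) * B)
    (hE : 0 ≤ E0) (hWA : Wj * A ≤ 2) (hN0 : 0 ≤ N)
    (hN : |N - len * P| ≤ ε * (len * P) + E0) (hWP : |Wj * P - σ| ≤ η * σ)
    (hS1 : Wj * B * N ≤ S1) (hS2 : S1 ≤ Wj * A * N) (hL1 : len * B ≤ L1) (hL2 : L1 ≤ len * A) :
    |S1 - σ * L1| ≤ (3 * ε + 4 * η) * (σ * L1) + 2 * E0 := by
  obtain ⟨n1, n2⟩ := abs_le.1 hN
  obtain ⟨w1, w2⟩ := abs_le.1 hWP
  have hA : 0 ≤ A := hB.trans hBA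
  have hWA0 : 0 ≤ Wj * A := mul_nonneg hWj hA
  have hWB0 : 0 ≤ Wj * B := mul_nonneg hWj hB
  have hL0 : 0 ≤ L1 := le_trans (mul_nonneg hlen hB) hL1
  have hσL : 0 ≤ σ * L1 := mul_nonneg hσ hL0
  have hlB : len * A ≤ (1 + ε) * L1 := by
    calc len * A ≤ len * ((1 + ε) * B) := mul_le_mul_of_nonneg_left hAB hlen
      _ = (1 + ε) * (len * B) := by ring
      _ ≤ (1 + ε) * L1 := mul_le_mul_of_nonneg_left hL1 (by linarith)
  have hWP2 : Wj * P ≤ (1 + η) * σ := by linarith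
  have hWP1 : (1 - η) * σ ≤ Wj * P := by linarith
  have hWPn : 0 ≤ Wj * P := mul_nonneg hWj hP
  rw [abs_le]
  constructor
  · -- lower
    have h1 : Wj * B * ((1 - ε) * (len * P) - E0) ≤ S1 := by
      refine le_trans (mul_le_mul_of_nonneg_left ?_ hWB0) hS1
      linarith
    have h2 : Wj * B * E0 ≤ 2 * E0 := by
      apply mul_le_mul_of_nonneg_right _ hE
      exact (mul_le_mul_of_nonneg_left hBA hWj).trans hWA
    have h3 : (1 - ε) * L1 ≤ len * B := by
      have h4 : len * A ≤ (1 + ε) * (len * B) := by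
        calc len * A ≤ len * ((1 + ε) * B) := mul_le_mul_of_nonneg_left hAB hlen
          _ = _ := by ring
      have h5 : L1 ≤ (1 + ε) * (len * B) := hL2.trans h4
      have h6 : (1 - ε) * L1 ≤ (1 - ε) * ((1 + ε) * (len * B)) := mul_le_mul_of_nonneg_left h5 (by linarith)
      have h7 : 0 ≤ len * B := mul_nonneg hlen hB
      nlinarith
    have h4 : (1 - ε) * ((1 - η) * σ * ((1 - ε) * L1)) ≤ Wj * B * ((1 - ε) * (len * P)) := by
      have h5 : (1 - η) * σ * ((1 - ε) * L1) ≤ (Wj * P) * (len * B) := by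
        apply mul_le_mul hWP1 h3 _ hWPn
        exact mul_nonneg (by linarith) hL0
      calc (1 - ε) * ((1 - η) * σ * ((1 - ε) * L1)) ≤ (1 - ε) * ((Wj * P) * (len * B)) :=
            mul_le_mul_of_nonneg_left h5 (by linarith)
        _ = _ := by ring
    have h5 : (1 - (3 * ε + 4 * η)) * (σ * L1) ≤ (1 - ε) * ((1 - η) * σ * ((1 - ε) * L1)) := by
      have h6 : (1 - (3 * ε + 4 * η)) ≤ (1 - ε) * (1 - η) * (1 - ε) := by nlinarith [mul_nonneg hε.le hη, mul_nonneg (mul_nonneg hε.le hη) (by linarith : (0:ℝ) ≤ 1 - ε), sq_nonneg ε]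
      calc (1 - (3 * ε + 4 * η)) * (σ * L1) ≤ ((1 - ε) * (1 - η) * (1 - ε)) * (σ * L1) := mul_le_mul_of_nonneg_right h6 hσL
        _ = _ := by ring
    have h6 : Wj * B * ((1 - ε) * (len * P) - E0) = Wj * B * ((1 - ε) * (len * P)) - Wj * B * E0 := by ring
    rw [h6] at h1
    linarith
  · -- upper
    have h1 : S1 ≤ Wj * A * ((1 + ε) * (len * P) + E0) := by
      refine hS2.trans (mul_le_mul_of_nonneg_left ?_ hWA0)
      linarith
    have h2 : Wj * A * E0 ≤ 2 * E0 := mul_le_mul_of_nonneg_right hWA hE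
    have h4 : Wj * A * ((1 + ε) * (len * P)) ≤ (1 + ε) * ((1 + η) * σ * ((1 + ε) * L1)) := by
      have h5 : (Wj * P) * (len * A) ≤ (1 + η) * σ * ((1 + ε) * L1) := by
        apply mul_le_mul hWP2 hlB (mul_nonneg hlen hA)
        exact mul_nonneg (by linarith) hσ
      calc Wj * A * ((1 + ε) * (len * P)) = (1 + ε) * ((Wj * P) * (len * A)) := by ring
        _ ≤ _ := mul_le_mul_of_nonneg_left h5 (by linarith)
    have h5 : (1 + ε) * ((1 + η) * σ * ((1 + ε) * L1)) ≤ (1 + (3 * ε + 4 * η)) * (σ * L1) := by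
      have h6 : (1 + ε) * (1 + η) * (1 + ε) ≤ 1 + (3 * ε + 4 * η) := by
        have e1 : ε * ε ≤ ε := by nlinarith
        have e2 : ε * η ≤ η := by nlinarith
        have e3 : ε * ε * η ≤ η := by nlinarith
        nlinarith
      calc (1 + ε) * ((1 + η) * σ * ((1 + ε) * L1)) = ((1 + ε) * (1 + η) * (1 + ε)) * (σ * L1) := by ring
        _ ≤ _ := mul_le_mul_of_nonneg_right h6 hσL
    have h6 : Wj * A * ((1 + ε) * (len * P) + E0) = Wj * A * ((1 + ε) * (len * P)) + Wj * A * E0 := by ring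
    rw [h6] at h1
    linarith

/-- the logarithm is nearly constant on large dyadic intervals -/
lemma exists_m0 (r : ℕ) (ε : ℝ) (hε : 0 < ε) : ∃ m0 : ℕ, 1 ≤ m0 ∧ ∀ l : ℕ, m0 ≤ l → (1 + 1 / (l : ℝ)) ^ r ≤ 1 + ε := by
  have hc : Tendsto (fun l : ℕ => (1 + 1 / (l : ℝ)) ^ r) atTop (𝓝 1) := by
    have h1 : Tendsto (fun l : ℕ => 1 + 1 / (l : ℝ)) atTop (𝓝 (1 + 0)) :=
      tendsto_const_nhds.add tendsto_one_div_atTop_nhds_zero_nat
    rw [add_zero] at h1
    have h2 := h1.pow r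
    rwa [one_pow] at h2
  obtain ⟨N, hN⟩ := eventually_atTop.1 (hc.eventually_le_const (show (1 : ℝ) < 1 + ε by linarith))
  exact ⟨max N 1, le_max_right _ _, fun l hl => hN l (le_trans (le_max_left _ _) hl)⟩

open Classical in
theorem main_det (r : ℕ) (ε : ℝ) (hε : 0 < ε) (hε1 : ε ≤ 1) : ∃ K x0 M : ℕ, 1 ≤ K ∧ 1 ≤ M ∧
    ∀ z : ℕ → ℕ, Monotone z → ∀ Y : ℕ, x0 ≤ Y → ∀ T : Finset (ℤ × ℤ), T.card = r → (∀ f ∈ T, IsCoprime f.1 f.2) →
    ∀ u v w V : ℕ, (∀ f ∈ T, ∀ n, u < n → n ≤ v → M ≤ val f n ∧ val f n ≤ V ∧ w ≤ z (val f n) ∧ z (val f n) ≤ Y ∧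
      W (z (val f n)) / Real.log (val f n) < 1) →
    ∀ σ η : ℝ, 0 ≤ σ → 0 ≤ η → η ≤ 1 →
    (∀ S : ℕ → Finset (ℤ × ℤ), (∀ p, S p ⊆ T) → (∀ p ≤ w, S p = T) →
      |∏ p ∈ (Icc 1 Y).filter Nat.Prime, lc (S p) p - σ| ≤ η * σ) →
    |∑ n ∈ Ioc u v, ∏ f ∈ T, rho1 z (val f n) - σ * ∑ n ∈ Ioc u v, ∏ f ∈ T, (Real.log (val f n))⁻¹| ≤
      (3 * ε + 4 * η) * (σ * ∑ n ∈ Ioc u v, ∏ f ∈ T, (Real.log (val f n))⁻¹) +
        2 * (((Y + 1) * (Nat.log 2 V + 1)) ^ r : ℕ) * √((Y : ℝ) ^ K) := by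
  obtain ⟨K, x0, hK, hsys⟩ := sys_Ioc (max r 1) (le_max_right _ _) ε hε
  obtain ⟨m0, hm01, hm0⟩ := exists_m0 r ε hε
  refine ⟨K, x0, 2 ^ m0, hK, Nat.one_le_two_pow, ?_⟩
  intro z hz Y hY T hTr hT u v w V hval σ η hσ hη hη1 hsing
  -- one fibre
  have hfib : ∀ t : T → ℕ × ℕ, |∑ n ∈ (Ioc u v).filter (fun n => key z T n = t), ∏ f ∈ T, rho1 z (val f n) -
      σ * ∑ n ∈ (Ioc u v).filter (fun n => key z T n = t), ∏ f ∈ T, (Real.log (val f n))⁻¹| ≤
      (3 * ε + 4 * η) * (σ * ∑ n ∈ (Ioc u v).filter (fun n => key z T n = t), ∏ f ∈ T, (Real.log (val f n))⁻¹) +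
        2 * √((Y : ℝ) ^ K) := by
    intro t
    rcases ((Ioc u v).filter (fun n => key z T n = t)).eq_empty_or_nonempty with he | ⟨n0, hn0⟩
    · rw [he]
      simp only [sum_empty, mul_zero, sub_zero, abs_zero]
      positivity
    obtain ⟨a, b, hab, hI⟩ := fiber_Ioc u v (key z T) (fun a b c h1 h2 h3 => key_conv hz T h1 h2 h3) t
    rw [mem_filter, mem_Ioc] at hn0
    set j : ℤ × ℤ → ℕ := fun f => z (val f n0) with hj
    set l : ℤ × ℤ → ℕ := fun f => Nat.log 2 (val f n0) with hl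
    have hmem : ∀ n ∈ Ioc a b, u < n ∧ n ≤ v ∧ ∀ f ∈ T, z (val f n) = j f ∧ Nat.log 2 (val f n) = l f := by
      intro n hn
      rw [← hI, mem_filter, mem_Ioc] at hn
      refine ⟨hn.1.1, hn.1.2, fun f hf => ?_⟩
      have h1 := congrFun (hn.2.trans hn0.2.symm) ⟨f, hf⟩
      unfold key at h1
      rw [Prod.mk.injEq] at h1
      exact h1
    have hjY : ∀ f ∈ T, j f ≤ Y := fun f hf => (hval f hf n0 hn0.1.1 hn0.1.2).2.2.2.1
    have hjw : ∀ f ∈ T, w ≤ j f := fun f hf => (hval f hf n0 hn0.1.1 hn0.1.2).2.2.1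
    have hlm : ∀ f ∈ T, m0 ≤ l f := by
      intro f hf
      have h1 := (hval f hf n0 hn0.1.1 hn0.1.2).1
      have h2 := Nat.log_mono_right (b := 2) h1
      rwa [Nat.log_pow (by norm_num)] at h2
    have hlog2 : 0 < Real.log 2 := Real.log_pos (by norm_num)
    have hl0 : ∀ f ∈ T, (0 : ℝ) < l f := fun f hf => by
      have := hlm f hf
      exact_mod_cast (by omega : 0 < l f)
    set B : ℝ := ∏ f ∈ T, (((l f : ℝ) + 1) * Real.log 2)⁻¹ with hB
    set A : ℝ := ∏ f ∈ T, ((l f : ℝ) * Real.log 2)⁻¹ with hA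
    set Wj : ℝ := ∏ f ∈ T, W (j f) with hWj
    have hB0 : 0 ≤ B := prod_nonneg fun f _ => by positivity
    have hWj0 : 0 ≤ Wj := prod_nonneg fun f _ => zero_le_one.trans (W_ge _)
    have hlam : ∀ n ∈ Ioc a b, B ≤ ∏ f ∈ T, (Real.log (val f n))⁻¹ ∧ ∏ f ∈ T, (Real.log (val f n))⁻¹ ≤ A := by
      intro n hn
      obtain ⟨h1, h2, h3⟩ := hmem n hn
      have h4 : ∀ f ∈ T, (l f : ℝ) * Real.log 2 ≤ Real.log (val f n) ∧ Real.log (val f n) ≤ ((l f : ℝ) + 1) * Real.log 2 := by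
        intro f hf
        have h5 := (hval f hf n h1 h2).1
        exact log_bounds (le_trans Nat.one_le_two_pow h5) (h3 f hf).2
      constructor
      · apply Finset.prod_le_prod
        · intro f _; positivity
        · intro f hf
          have h5 : 0 < (l f : ℝ) * Real.log 2 := mul_pos (hl0 f hf) hlog2
          exact inv_anti₀ (lt_of_lt_of_le h5 (h4 f hf).1) (h4 f hf).2
      · apply Finset.prod_le_prod
        · intro f hf
          have h5 : 0 < (l f : ℝ) * Real.log 2 := mul_pos (hl0 f hf) hlog2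
          exact inv_nonneg.2 (h5.le.trans (h4 f hf).1)
        · intro f hf
          exact inv_anti₀ (mul_pos (hl0 f hf) hlog2) (h4 f hf).1
    have hAB : A ≤ (1 + ε) * B := by
      have h1 : A = (∏ f ∈ T, (1 + 1 / (l f : ℝ))) * B := by
        rw [hA, hB, ← prod_mul_distrib]
        apply prod_congr rfl
        intro f hf
        have := hl0 f hf
        field_simp
      rw [h1]
      apply mul_le_mul_of_nonneg_right _ hB0
      rcases T.eq_empty_or_nonempty with hTe | hTe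
      · rw [hTe, prod_empty]; linarith
      · have h2 : ∏ f ∈ T, (1 + 1 / (l f : ℝ)) ≤ ∏ f ∈ T, (1 + 1 / (m0 : ℝ)) := by
          apply Finset.prod_le_prod
          · intro f _; positivity
          · intro f hf
            have h3 : (m0 : ℝ) ≤ l f := by exact_mod_cast hlm f hf
            have h4 : (0 : ℝ) < m0 := by exact_mod_cast hm01
            gcongr
        rw [prod_const, hTr] at h2
        exact h2.trans (hm0 m0 le_rfl)
    have hn0' : n0 ∈ Ioc a b := by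
      rw [← hI, mem_filter, mem_Ioc]
      exact hn0
    have hBA : B ≤ A := (hlam n0 hn0').1.trans (hlam n0 hn0').2
    have hWA : Wj * A ≤ 2 := by
      have h1 : Wj * ∏ f ∈ T, (Real.log (val f n0))⁻¹ ≤ 1 := by
        rw [hWj, ← prod_mul_distrib]
        apply prod_le_one
        · intro f hf
          exact mul_nonneg (zero_le_one.trans (W_ge _)) (inv_nonneg.2 (Real.log_natCast_nonneg _))
        · intro f hf
          have := (hval f hf n0 hn0.1.1 hn0.1.2).2.2.2.2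
          rw [← div_eq_mul_inv]
          exact this.le
      calc Wj * A ≤ Wj * ((1 + ε) * B) := mul_le_mul_of_nonneg_left hAB hWj0
        _ ≤ Wj * ((1 + ε) * ∏ f ∈ T, (Real.log (val f n0))⁻¹) := by
            apply mul_le_mul_of_nonneg_left _ hWj0
            exact mul_le_mul_of_nonneg_left (hlam n0 hn0').1 (by linarith)
        _ = (1 + ε) * (Wj * ∏ f ∈ T, (Real.log (val f n0))⁻¹) := by ring
        _ ≤ (1 + ε) * 1 := mul_le_mul_of_nonneg_left h1 (by linarith)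
        _ ≤ 2 := by linarith
    -- the sieve
    have hper := QQ_per T hT j
    have hper' : PerB (QQ T j) (max r 1) := ⟨hper.per, fun p hp => (hper.few p hp).trans (by rw [hTr]; exact le_max_left _ _)⟩
    have hN := hsys Y hY (QQ T j) hper' a b hab
    set P : ℝ := ∏ p ∈ pz Y, (1 - (nuB (QQ T j) p : ℝ) / p) with hP
    set N : ℝ := (((Ioc a b).filter (fun n : ℕ => ∀ p ∈ pz Y, ¬ QQ T j p n)).card : ℝ) with hNd
    have hP0 : 0 ≤ P := by
      apply prod_nonneg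
      intro p hp
      have hp0 : (0 : ℝ) < p := by exact_mod_cast (mem_pz.1 hp).2.pos
      have h1 : (nuB (QQ T j) p : ℝ) / p ≤ 1 := by rw [div_le_one hp0]; exact_mod_cast nuB_le _ p
      linarith
    have hWP : |Wj * P - σ| ≤ η * σ := by
      rw [hWj, hP, WP T j Y hjY]
      refine hsing (fun p => T.filter (fun f => p ≤ j f)) (fun p => filter_subset _ _) ?_
      intro p hp
      exact filter_true_of_mem fun f hf => hp.trans (hjw f hf)
    -- the sums
    have hrough : ∀ n ∈ Ioc a b, ∏ f ∈ T, rho1 z (val f n) =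
        if ∀ p ∈ pz Y, ¬ QQ T j p n then Wj * ∏ f ∈ T, (Real.log (val f n))⁻¹ else 0 := by
      intro n hn
      obtain ⟨h1, h2, h3⟩ := hmem n hn
      have h4 : (∀ p ∈ pz Y, ¬ QQ T j p n) ↔ ∀ f ∈ T, Rough z (val f n) := by
        have hdv : ∀ f ∈ T, ∀ p : ℕ, p ∣ val f n ↔ (p : ℤ) ∣ f.1 * n + f.2 := by
          intro f hf p
          have h5 := (hval f hf n h1 h2).1
          have h6 : 1 ≤ val f n := le_trans Nat.one_le_two_pow h5
          have h7 : ((val f n : ℕ) : ℤ) = f.1 * n + f.2 := by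
            unfold val at h6 ⊢
            exact Int.toNat_of_nonneg (by omega)
          rw [← h7]
          exact_mod_cast Iff.rfl
        constructor
        · intro h f hf q hq hqz hqd
          rw [(h3 f hf).1] at hqz
          exact h q (mem_pz.2 ⟨hqz.trans (hjY f hf), hq⟩) ⟨f, hf, hqz, (hdv f hf q).1 hqd⟩
        · rintro h p hp ⟨f, hf, h5, h6⟩
          have h7 := h f hf p (mem_pz.1 hp).2
          rw [(h3 f hf).1] at h7
          exact h7 h5 ((hdv f hf p).2 h6)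
      split_ifs with h5
      · rw [h4] at h5
        rw [hWj, ← prod_mul_distrib]
        apply prod_congr rfl
        intro f hf
        unfold rho1
        rw [if_pos (h5 f hf), min_eq_right (hval f hf n h1 h2).2.2.2.2.le, (h3 f hf).1, div_eq_mul_inv]
      · rw [h4] at h5
        push Not at h5
        obtain ⟨f, hf, h6⟩ := h5
        apply prod_eq_zero hf
        unfold rho1
        rw [if_neg h6]
    rw [hI]
    have hS : ∑ n ∈ Ioc a b, ∏ f ∈ T, rho1 z (val f n) =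
        ∑ n ∈ (Ioc a b).filter (fun n : ℕ => ∀ p ∈ pz Y, ¬ QQ T j p n), Wj * ∏ f ∈ T, (Real.log (val f n))⁻¹ := by
      rw [sum_congr rfl hrough, sum_filter]
    have hlen : ((b : ℝ) - a) = ((Ioc a b).card : ℝ) := by
      rw [Nat.card_Ioc, Nat.cast_sub hab]
    refine fib_arith (len := (b : ℝ) - a) (P := P) (Wj := Wj) (A := A) (B := B) (N := N) hε hε1 hη hη1 hσ ?_ hP0 hWj0 hB0 hBA hAB
      (Real.sqrt_nonneg _) hWA (Nat.cast_nonneg _) hN hWP ?_ ?_ ?_ ?_
    · rw [hlen]; exact Nat.cast_nonneg _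
    · rw [hS, hNd]
      calc Wj * B * (((Ioc a b).filter (fun n : ℕ => ∀ p ∈ pz Y, ¬ QQ T j p n)).card : ℝ) =
          ∑ n ∈ (Ioc a b).filter (fun n : ℕ => ∀ p ∈ pz Y, ¬ QQ T j p n), Wj * B := by
            rw [sum_const, nsmul_eq_mul, mul_comm]
        _ ≤ _ := sum_le_sum fun n hn => mul_le_mul_of_nonneg_left (hlam n (mem_filter.1 hn).1).1 hWj0
    · rw [hS, hNd]
      calc _ ≤ ∑ n ∈ (Ioc a b).filter (fun n : ℕ => ∀ p ∈ pz Y, ¬ QQ T j p n), Wj * A :=
            sum_le_sum fun n hn => mul_le_mul_of_nonneg_left (hlam n (mem_filter.1 hn).1).2 hWj0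
        _ = _ := by rw [sum_const, nsmul_eq_mul, mul_comm]
    · rw [hlen]
      calc ((Ioc a b).card : ℝ) * B = ∑ n ∈ Ioc a b, B := by rw [sum_const, nsmul_eq_mul]
        _ ≤ _ := sum_le_sum fun n hn => (hlam n hn).1
    · rw [hlen]
      calc _ ≤ ∑ n ∈ Ioc a b, A := sum_le_sum fun n hn => (hlam n hn).2
        _ = _ := by rw [sum_const, nsmul_eq_mul]
  -- all fibres
  set X : Finset (T → ℕ × ℕ) := Fintype.piFinset (fun _ => range (Y + 1) ×ˢ range (Nat.log 2 V + 1)) with hX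
  have hXcard : X.card = ((Y + 1) * (Nat.log 2 V + 1)) ^ r := by
    rw [hX, Fintype.card_piFinset]
    simp [hTr]
  have hmaps : ∀ n ∈ Ioc u v, key z T n ∈ X := by
    intro n hn
    rw [mem_Ioc] at hn
    rw [hX, Fintype.mem_piFinset]
    intro f
    have h1 := hval f.1 f.2 n hn.1 hn.2
    rw [mem_product, mem_range, mem_range]
    unfold key
    refine ⟨?_, ?_⟩
    · have := h1.2.2.2.1
      simp only
      omega
    · have := Nat.log_mono_right (b := 2) h1.2.1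
      simp only
      omega
  have e1 : ∑ n ∈ Ioc u v, ∏ f ∈ T, rho1 z (val f n) =
      ∑ t ∈ X, ∑ n ∈ (Ioc u v).filter (fun n => key z T n = t), ∏ f ∈ T, rho1 z (val f n) :=
    (sum_fiberwise_of_maps_to hmaps _).symm
  have e2 : ∑ n ∈ Ioc u v, ∏ f ∈ T, (Real.log (val f n))⁻¹ =
      ∑ t ∈ X, ∑ n ∈ (Ioc u v).filter (fun n => key z T n = t), ∏ f ∈ T, (Real.log (val f n))⁻¹ :=
    (sum_fiberwise_of_maps_to hmaps _).symm
  rw [e1, e2, mul_sum, ← sum_sub_distrib]
  refine (abs_sum_le_sum_abs _ _).trans ((sum_le_sum fun t _ => hfib t).trans ?_)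
  rw [sum_add_distrib, ← mul_sum, sum_const, nsmul_eq_mul, hXcard]
  apply le_of_eq
  ring

end Pool.Agent.H320RM.Det
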