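import Mathlib

set_option autoImplicit false

/-! Independent events with prescribed probabilities, and their conditional probabilities. -/

namespace Pool.Agent.H320RM.Exist

open MeasureTheory ProbabilityTheory Filter
open scoped ENNReal

/-- the measure on `Bool` with weight `p` at `true` -/
noncomputable def ber (p : ℝ) : Measure Bool :=
  ENNReal.ofReal p • Measure.dirac true + ENNReal.ofReal (1 - p) • Measure.dirac false

lemma ber_prob {p : ℝ} (h0 : 0 ≤ p) (h1 : p ≤ 1) : IsProbabilityMeasure (ber p) := by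
  refine ⟨?_⟩
  unfold ber
  rw [Measure.add_apply, Measure.smul_apply, Measure.smul_apply, Measure.dirac_apply' _ MeasurableSet.univ,
    Measure.dirac_apply' _ MeasurableSet.univ]
  simp only [Set.indicator_univ, Pi.one_apply, smul_eq_mul, mul_one]
  rw [← ENNReal.ofReal_add h0 (by linarith)]
  simp

lemma ber_true (p : ℝ) : ber p {true} = ENNReal.ofReal p := by
  unfold ber
  rw [Measure.add_apply, Measure.smul_apply, Measure.smul_apply, Measure.dirac_apply' _ (MeasurableSet.singleton _),
    Measure.dirac_apply' _ (MeasurableSet.singleton _)]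
  simp

/-- **Existence.** -/
theorem exists_indep (p : ℕ → ℝ) (h0 : ∀ n, 0 ≤ p n) (h1 : ∀ n, p n ≤ 1) :
    ∃ (Ω : Type) (mΩ : MeasurableSpace Ω) (μ : Measure Ω) (_ : IsProbabilityMeasure μ) (ℱ : Filtration ℕ mΩ)
      (S : ℕ → Set Ω), (∀ n, MeasurableSet[ℱ n] (S n)) ∧ (∀ n, p n = 0 → S n = ∅) ∧
      ∀ᵐ ω ∂μ, ∀ n, (μ[(S (n + 1)).indicator (fun _ => (1 : ℝ)) | ℱ n]) ω = p (n + 1) := by
  classical
  have hpr : ∀ n, IsProbabilityMeasure (ber (p n)) := fun n => ber_prob (h0 n) (h1 n)
  set μ : Measure (ℕ → Bool) := Measure.infinitePi (fun n => ber (p n)) with hμ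
  set B : ℕ → Set Bool := fun n => if p n = 0 then ∅ else {true} with hB
  set S : ℕ → Set (ℕ → Bool) := fun n => {ω | ω n ∈ B n} with hS
  have hSm : ∀ n, MeasurableSet (S n) := fun n => (measurable_pi_apply n) (MeasurableSet.of_discrete (s := B n))
  have hBn : ∀ n, ber (p n) (B n) = ENNReal.ofReal (p n) := by
    intro n
    simp only [hB]
    split_ifs with h
    · rw [h, measure_empty, ENNReal.ofReal_zero]
    · exact ber_true (p n)
  have hSi : ∀ s : Finset ℕ, μ (⋂ i ∈ s, S i) = ∏ i ∈ s, ENNReal.ofReal (p i) := by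
    intro s
    have e : (⋂ i ∈ s, S i) = Set.pi (s : Set ℕ) B := by
      ext ω
      simp only [hS, Set.mem_iInter, Set.mem_pi, Finset.mem_coe]
      rfl
    rw [e, hμ, Measure.infinitePi_pi]
    · exact Finset.prod_congr rfl fun i _ => hBn i
    · intro i _
      exact MeasurableSet.of_discrete
  have hS1 : ∀ n, μ (S n) = ENNReal.ofReal (p n) := by
    intro n
    have := hSi {n}
    simpa using this
  have hind : iIndepSet S μ := by
    rw [iIndepSet_iff_meas_biInter hSm]
    intro s
    rw [hSi s]
    exact Finset.prod_congr rfl fun i _ => (hS1 i).symm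
  refine ⟨ℕ → Bool, inferInstance, μ, inferInstance, filtrationOfSet hSm, S, ?_, ?_, ?_⟩
  · intro n
    exact measurableSet_filtrationOfSet' hSm n
  · intro n hn
    simp only [hS, hB, hn, if_true]
    ext ω
    simp
  · rw [ae_all_iff]
    intro n
    have h2 := hind.condExp_indicator_filtrationOfSet_ae_eq hSm (Nat.lt_succ_self n)
    filter_upwards [h2] with ω hω
    rw [hω]
    show (μ (S (n + 1))).toReal = _
    rw [hS1, ENNReal.toReal_ofReal (h0 _)]

end Pool.Agent.H320RM.Exist
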