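import Mathlib
import Pool.Agent.H320RM.Det2

set_option autoImplicit false
set_option linter.unusedVariables false

/-! The expected number in the models with a growing sieve, uniformly for all systems of linear forms with
coefficients bounded by a power of `x`. -/

namespace Pool.Agent.H320RM.Det

open Finset Filter Pool.Agent.H320RM.Sv Pool.Agent.H320RM.LF Pool.Agent.H320RM.Mod
open scoped Topology

/-- order-convex finite sets of positive integers are intervals -/
lemma convex_Ioc (S : Finset ℕ) (h0 : 0 ∉ S) (hS : ∀ a b c, a ∈ S → c ∈ S → a ≤ b → b ≤ c → b ∈ S) :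
    ∃ a b, a ≤ b ∧ S = Ioc a b := by
  rcases S.eq_empty_or_nonempty with h | h
  · exact ⟨0, 0, le_rfl, by rw [h]; simp⟩
  · have hmin := S.min'_mem h
    have hmax := S.max'_mem h
    have h01 := S.min'_le _ hmax
    have h1 : 0 < S.min' h := Nat.pos_of_ne_zero fun h2 => h0 (h2 ▸ hmin)
    refine ⟨S.min' h - 1, S.max' h, by omega, ?_⟩
    ext n
    rw [mem_Ioc]
    constructor
    · intro hn
      have h1 := S.min'_le n hn
      have h2 := S.le_max' n hn
      exact ⟨by omega, h2⟩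
    · rintro ⟨h1, h2⟩
      exact hS _ n _ hmin hmax (by omega) h2

/-- a form takes every positive value at most once -/
lemma val_inj {f : ℤ × ℤ} (hf : f.1 ≠ 0) {n m : ℕ} (h1 : 1 ≤ val f n) (h : val f n = val f m) : n = m := by
  unfold val at h h1
  have h2 : f.1 * (n : ℤ) + f.2 = f.1 * m + f.2 := by omega
  have h3 : f.1 * (n : ℤ) = f.1 * m := by omega
  have := mul_left_cancel₀ hf h3
  exact_mod_cast this

lemma few_small (T : Finset (ℤ × ℤ)) (hT : ∀ f ∈ T, f.1 ≠ 0) (u v M : ℕ)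
    (hpos : ∀ f ∈ T, ∀ n, u < n → n ≤ v → 1 ≤ val f n) :
    ((Ioc u v).filter (fun n => ¬ ∀ f ∈ T, M ≤ val f n)).card ≤ T.card * M := by
  classical
  have h1 : (Ioc u v).filter (fun n => ¬ ∀ f ∈ T, M ≤ val f n) ⊆
      T.biUnion (fun f => (Ioc u v).filter (fun n => val f n < M)) := by
    intro n hn
    rw [mem_filter] at hn
    obtain ⟨h2, h3⟩ := hn
    push Not at h3
    obtain ⟨f, hf, h4⟩ := h3
    rw [mem_biUnion]
    exact ⟨f, hf, mem_filter.2 ⟨h2, h4⟩⟩
  refine (card_le_card h1).trans (card_biUnion_le.trans ?_)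
  have h2 : ∀ f ∈ T, ((Ioc u v).filter (fun n => val f n < M)).card ≤ M := by
    intro f hf
    calc _ ≤ (range M).card := by
          apply card_le_card_of_injOn (val f)
          · intro n hn
            rw [mem_coe, mem_filter] at hn
            rw [mem_coe, mem_range]
            exact hn.2
          · intro n hn m hm h
            rw [mem_coe, mem_filter, mem_Ioc] at hn
            exact val_inj (hT f hf) (hpos f hf n hn.1.1 hn.1.2) h
      _ = M := card_range M
  refine (sum_le_card_nsmul _ _ _ h2).trans ?_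
  rw [smul_eq_mul]

lemma big_Ioc (T : Finset (ℤ × ℤ)) (u v M : ℕ) : ∃ a b, a ≤ b ∧
    (Ioc u v).filter (fun n => ∀ f ∈ T, M ≤ val f n) = Ioc a b := by
  apply convex_Ioc
  · simp
  · intro a b c ha hc hab hbc
    rw [mem_filter, mem_Ioc] at ha hc ⊢
    refine ⟨⟨by omega, by omega⟩, fun f hf => ?_⟩
    rcases le_total 0 f.1 with h | h
    · exact (ha.2 f hf).trans (val_mono h hab)
    · exact (hc.2 f hf).trans (val_anti h hbc)

lemma fst_ne (T : Finset (ℤ × ℤ)) (hD : DT T ≠ 0) : ∀ f ∈ T, f.1 ≠ 0 := by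
  intro f hf h
  apply hD
  unfold DT
  rw [prod_eq_zero hf h, zero_mul]

lemma inv_log_le {m : ℕ} : (Real.log (m : ℝ))⁻¹ ≤ 2 := by
  rcases Nat.lt_or_ge m 2 with h | h
  · have : m = 0 ∨ m = 1 := by omega
    rcases this with rfl | rfl <;> simp
  · have h1 : Real.log 2 ≤ Real.log (m : ℝ) := Real.log_le_log (by norm_num) (by exact_mod_cast h)
    have h2 := Real.log_two_gt_d9
    rw [inv_le_comm₀ (by linarith) (by norm_num)]
    linarith

lemma lam_le (T : Finset (ℤ × ℤ)) (n : ℕ) : ∏ f ∈ T, (Real.log (val f n))⁻¹ ≤ 2 ^ T.card := by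
  rw [← prod_const]
  exact Finset.prod_le_prod (fun f _ => inv_nonneg.2 (Real.log_natCast_nonneg _)) (fun f _ => inv_log_le)

lemma lam_nonneg (T : Finset (ℤ × ℤ)) (n : ℕ) : 0 ≤ ∏ f ∈ T, (Real.log (val f n))⁻¹ :=
  prod_nonneg (fun f _ => inv_nonneg.2 (Real.log_natCast_nonneg _))

lemma rho_prod_le (z : ℕ → ℕ) (T : Finset (ℤ × ℤ)) (n : ℕ) : 0 ≤ ∏ f ∈ T, rho1 z (val f n) ∧ ∏ f ∈ T, rho1 z (val f n) ≤ 1 :=
  ⟨prod_nonneg fun f _ => (rho1_bounds z _).1, prod_le_one (fun f _ => (rho1_bounds z _).1) fun f _ => (rho1_bounds z _).2⟩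

lemma BH_nonneg (T : Finset (ℤ × ℤ)) (hD : DT T ≠ 0) (hT : ∀ f ∈ T, IsCoprime f.1 f.2) : 0 ≤ BH T := by
  have h := BH_hasProd T hD hT
  rw [HasProd] at h
  refine ge_of_tendsto h ?_
  filter_upwards with F
  exact prod_nonneg fun p _ => lc_nonneg T p.2

/-- the profile of a growing sieve -/
structure Grow (z : ℕ → ℕ) : Prop where
  mono : Monotone z
  low : Tendsto (fun n : ℕ => (z n : ℝ) / Real.log n) atTop atTop
  up : Tendsto (fun n : ℕ => Real.log (z n) / Real.log n) atTop (𝓝 0)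

lemma Grow.pow {z : ℕ → ℕ} (hz : Grow z) (δ : ℝ) (hδ : 0 < δ) : ∀ᶠ n : ℕ in atTop, (z n : ℝ) ≤ (n : ℝ) ^ δ := by
  filter_upwards [hz.up.eventually_lt_const hδ, eventually_gt_atTop 1, log_tendsto.eventually_gt_atTop 0] with n h1 h2 h3
  rw [div_lt_iff₀ h3] at h1
  have hn : (0 : ℝ) < n := by exact_mod_cast (by omega : 0 < n)
  rcases Nat.eq_zero_or_pos (z n) with h | h
  · rw [h, Nat.cast_zero]; positivity
  · have h4 : (0 : ℝ) < z n := by exact_mod_cast h
    rw [← Real.log_le_log_iff h4 (Real.rpow_pos_of_pos hn _), Real.log_rpow hn]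
    exact h1.le

lemma Grow.big {z : ℕ → ℕ} (hz : Grow z) (B : ℝ) : ∀ᶠ n : ℕ in atTop, B * Real.log n ≤ z n := by
  filter_upwards [hz.low.eventually_ge_atTop B, log_tendsto.eventually_gt_atTop 0] with n h1 h2
  rwa [le_div_iff₀ h2] at h1

lemma Grow.tendsto {z : ℕ → ℕ} (hz : Grow z) : Tendsto z atTop atTop := by
  rw [← tendsto_natCast_atTop_iff (R := ℝ)]
  refine tendsto_atTop_mono' _ ?_ log_tendsto
  filter_upwards [hz.big 1] with n hn
  rwa [one_mul] at hn

end Pool.Agent.H320RM.Det
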