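import Mathlib
import Pool.Agent.H320RM.Exp

set_option autoImplicit false
set_option linter.unusedVariables false

/-! The expected number in the models with a growing sieve, uniformly for all systems of linear forms with
coefficients bounded by a power of `x`. -/

namespace Pool.Agent.H320RM.Det

open Finset Filter Pool.Agent.H320RM.Sv Pool.Agent.H320RM.LF Pool.Agent.H320RM.Mod
open scoped Topology

lemma BH_low (r : ℕ) : ∃ c : ℝ, 0 < c ∧ ∀ T : Finset (ℤ × ℤ), T.card = r → DT T ≠ 0 → (∀ f ∈ T, IsCoprime f.1 f.2) →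
    (∀ p : ℕ, p.Prime → om T p < p) → c ≤ BH T := by
  classical
  set P0 : ℕ := 2 * r ^ 2 + r + 2 with hP0
  set c : ℝ := ∏ p ∈ (Icc 1 P0).filter Nat.Prime, (1 / (p : ℝ)) with hc
  have hc0 : 0 < c := prod_pos fun p hp => by
    have : (0 : ℝ) < p := by exact_mod_cast (mem_filter.1 hp).2.pos
    positivity
  refine ⟨c / 2, by positivity, fun T hTr hD hT hadm => ?_⟩
  have h := BH_hasProd T hD hT
  rw [HasProd] at h
  refine ge_of_tendsto h ?_
  filter_upwards with F
  rw [prod_toN F (fun p => lc T p)]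
  have hFp : ∀ p ∈ F.image toN, p.Prime := by
    intro p hp
    rw [mem_image] at hp
    obtain ⟨q, _, rfl⟩ := hp
    exact q.2
  rw [← prod_filter_mul_prod_filter_not (F.image toN) (fun p => p ≤ P0)]
  have h1 : c ≤ ∏ p ∈ (F.image toN).filter (fun p => p ≤ P0), lc T p := by
    have hsub : (F.image toN).filter (fun p => p ≤ P0) ⊆ (Icc 1 P0).filter Nat.Prime := by
      intro p hp
      rw [mem_filter] at hp
      rw [mem_filter, mem_Icc]
      exact ⟨⟨(hFp p hp.1).one_le, hp.2⟩, hFp p hp.1⟩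
    calc c ≤ ∏ p ∈ (F.image toN).filter (fun p => p ≤ P0), (1 / (p : ℝ)) := by
          rw [hc, ← prod_sdiff hsub]
          apply mul_le_of_le_one_left
          · exact prod_nonneg fun p _ => by positivity
          · apply prod_le_one
            · intro p _; positivity
            · intro p hp
              rw [Finset.mem_sdiff, mem_filter] at hp
              have : (1 : ℝ) ≤ p := by exact_mod_cast hp.1.2.one_le
              rw [div_le_one (by linarith)]
              exact this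
      _ ≤ _ := by
          apply Finset.prod_le_prod
          · intro p _; positivity
          · intro p hp
            rw [mem_filter] at hp
            have hpp := hFp p hp.1
            have hp0 : (0 : ℝ) < p := by exact_mod_cast hpp.pos
            have hp2 : (2 : ℝ) ≤ p := by exact_mod_cast hpp.two_le
            unfold lc
            have h2 : (1 - 1 / (p : ℝ)) ^ T.card ≤ 1 := by
              apply pow_le_one₀
              · have : 1 / (p : ℝ) ≤ 1 := by rw [div_le_one hp0]; linarith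
                linarith
              · have : 0 < 1 / (p : ℝ) := by positivity
                linarith
            have h2' : 0 < (1 - 1 / (p : ℝ)) ^ T.card := by
              apply pow_pos
              have : 1 / (p : ℝ) ≤ 1 / 2 := one_div_le_one_div_of_le (by norm_num) hp2
              linarith
            have h3 : 1 / (p : ℝ) ≤ 1 - (om T p : ℝ) / p := by
              have h4 : (om T p : ℝ) + 1 ≤ p := by exact_mod_cast hadm p hpp
              rw [le_sub_iff_add_le, ← add_div, div_le_one hp0]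
              linarith
            rw [le_div_iff₀ h2']
            calc 1 / (p : ℝ) * (1 - 1 / (p : ℝ)) ^ T.card ≤ 1 / (p : ℝ) * 1 :=
                  mul_le_mul_of_nonneg_left h2 (by positivity)
              _ ≤ _ := by rw [mul_one]; exact h3
  have h2 : 1 / 2 ≤ ∏ p ∈ (F.image toN).filter (fun p => ¬ p ≤ P0), lc T p := by
    have hbig : ∀ p ∈ (F.image toN).filter (fun p => ¬ p ≤ P0), p.Prime ∧ P0 < p := by
      intro p hp
      rw [mem_filter] at hp
      exact ⟨hFp p hp.1, not_le.1 hp.2⟩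
    have hsum : ∑ p ∈ (F.image toN).filter (fun p => ¬ p ≤ P0), (r : ℝ) ^ 2 * ((p : ℝ) ^ 2)⁻¹ ≤ 1 / 2 := by
      rw [← mul_sum]
      have h3 := sum_inv_sq_gt (by omega : 1 ≤ P0) ((F.image toN).filter (fun p => ¬ p ≤ P0)) (fun p hp => (hbig p hp).2)
      have h4 : (2 : ℝ) * r ^ 2 ≤ P0 := by
        rw [hP0]; push_cast
        have : (0 : ℝ) ≤ r := Nat.cast_nonneg r
        linarith
      have h5 : (0 : ℝ) < P0 := by exact_mod_cast (by omega : 0 < P0)
      calc (r : ℝ) ^ 2 * ∑ p ∈ (F.image toN).filter (fun p => ¬ p ≤ P0), ((p : ℝ) ^ 2)⁻¹ ≤ (r : ℝ) ^ 2 * (1 / P0) := by gcongr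
        _ ≤ 1 / 2 := by
          rw [mul_one_div, div_le_div_iff₀ h5 (by norm_num)]
          linarith
    have hle1 : ∀ p ∈ (F.image toN).filter (fun p => ¬ p ≤ P0), (r : ℝ) ^ 2 * ((p : ℝ) ^ 2)⁻¹ ≤ 1 := by
      intro p hp
      have h3 : (r : ℝ) ≤ (p : ℝ) := by
        have := (hbig p hp).2
        exact_mod_cast (by omega : r ≤ p)
      have h4 : (0:ℝ) < (p : ℝ) := by exact_mod_cast (hbig p hp).1.pos
      rw [← div_eq_mul_inv, div_le_one (by positivity)]
      exact pow_le_pow_left₀ (Nat.cast_nonneg _) h3 2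
    have h3 := one_sub_sum_le ((F.image toN).filter (fun p => ¬ p ≤ P0)) (fun p => (r : ℝ) ^ 2 * ((p : ℝ) ^ 2)⁻¹)
      (fun p _ => by positivity) hle1
    have h4 : ∏ p ∈ (F.image toN).filter (fun p => ¬ p ≤ P0), (1 - (r : ℝ) ^ 2 * ((p : ℝ) ^ 2)⁻¹) ≤
        ∏ p ∈ (F.image toN).filter (fun p => ¬ p ≤ P0), lc T p := by
      apply Finset.prod_le_prod
      · intro p hp
        have := hle1 p hp
        linarith
      · intro p hp
        have h5 := lc_ge T (hbig p hp).1 hT (by have := (hbig p hp).2; omega)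
        rwa [hTr] at h5
    linarith
  calc c / 2 = c * (1 / 2) := by ring
    _ ≤ _ := mul_le_mul h1 h2 (by norm_num) (hc0.le.trans h1)

/-- eventually, with real powers -/
lemma ev_pow (A α β : ℝ) (h : α < β) : ∀ᶠ x : ℕ in atTop, A * (x : ℝ) ^ α ≤ (x : ℝ) ^ β := by
  have h1 : Tendsto (fun x : ℕ => (x : ℝ) ^ (β - α)) atTop atTop :=
    (tendsto_rpow_atTop (by linarith)).comp tendsto_natCast_atTop_atTop
  filter_upwards [h1.eventually_ge_atTop A, eventually_ge_atTop 1] with x h2 h3
  have hx : (0 : ℝ) < x := by exact_mod_cast h3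
  calc A * (x : ℝ) ^ α ≤ (x : ℝ) ^ (β - α) * (x : ℝ) ^ α := mul_le_mul_of_nonneg_right h2 (by positivity)
    _ = _ := by rw [← Real.rpow_add hx]; congr 1; ring

lemma ev_log (A : ℝ) (k : ℕ) (β : ℝ) (h : 0 < β) : ∀ᶠ x : ℕ in atTop, A * Real.log x ^ k ≤ (x : ℝ) ^ β := by
  have h1 : (fun x : ℕ => A * Real.log x ^ k) =o[atTop] (fun x : ℕ => (x : ℝ) ^ β) := by
    have h2 := (isLittleO_log_rpow_rpow_atTop (k : ℝ) h).comp_tendsto (tendsto_natCast_atTop_atTop (R := ℝ))
    have h3 : (fun x : ℕ => Real.log x ^ k) =o[atTop] (fun x : ℕ => (x : ℝ) ^ β) := by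
      refine h2.congr_left fun x => ?_
      simp only [Function.comp]
      rw [Real.rpow_natCast]
    exact h3.const_mul_left A
  have h2 := h1.bound (show (0 : ℝ) < 1 by norm_num)
  filter_upwards [h2] with x hx
  rw [one_mul, Real.norm_eq_abs, Real.norm_eq_abs, abs_of_nonneg (a := (x : ℝ) ^ β) (by positivity)] at hx
  exact (le_abs_self _).trans hx

lemma val_up (f : ℤ × ℤ) (n x C : ℕ) (h : |f.1| ≤ (x : ℤ) ^ C ∧ |f.2| ≤ (x : ℤ) ^ C) (hn : n ≤ x ^ C) (hx : 2 ≤ x) :
    val f n ≤ x ^ (2 * C + 1) := by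
  unfold val
  have h1 : f.1 * (n : ℤ) ≤ (x : ℤ) ^ C * (x : ℤ) ^ C := by
    have h2 : (n : ℤ) ≤ (x : ℤ) ^ C := by exact_mod_cast hn
    calc f.1 * (n : ℤ) ≤ |f.1| * n := mul_le_mul_of_nonneg_right (le_abs_self _) (by positivity)
      _ ≤ _ := mul_le_mul h.1 h2 (by positivity) (by positivity)
  have h3 : f.2 ≤ (x : ℤ) ^ C := (le_abs_self _).trans h.2
  have hx1 : (1 : ℤ) ≤ (x : ℤ) ^ C := one_le_pow₀ (by exact_mod_cast (by omega : 1 ≤ x))
  have h4 : f.1 * (n : ℤ) + f.2 ≤ ((x ^ (2 * C + 1) : ℕ) : ℤ) := by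
    push_cast
    have e : (x : ℤ) ^ (2 * C + 1) = (x : ℤ) ^ C * (x : ℤ) ^ C * x := by ring
    rw [e]
    have hx2 : (2 : ℤ) ≤ x := by exact_mod_cast hx
    nlinarith [mul_nonneg (by linarith : (0 : ℤ) ≤ (x : ℤ) ^ C) (by linarith : (0 : ℤ) ≤ (x : ℤ) ^ C)]
  omega

end Pool.Agent.H320RM.Det
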