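import Mathlib
import Pool.Agent.H320RM.Exp2

set_option autoImplicit false
set_option linter.unusedVariables false

/-! The expected number in the models with a growing sieve: the uniform asymptotic formula. -/

namespace Pool.Agent.H320RM.Det

open Finset Filter Pool.Agent.H320RM.Sv Pool.Agent.H320RM.LF Pool.Agent.H320RM.Mod
open scoped Topology

/-- the threshold below which values are ignored -/
noncomputable def M0 (δ : ℝ) (x : ℕ) : ℕ := ⌈(x : ℝ) ^ (δ / 4)⌉₊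

lemma M0_tendsto (δ : ℝ) (hδ : 0 < δ) : Tendsto (M0 δ) atTop atTop := by
  rw [← tendsto_natCast_atTop_iff (R := ℝ)]
  refine tendsto_atTop_mono (fun x => Nat.le_ceil _) ?_
  exact (tendsto_rpow_atTop (by positivity)).comp tendsto_natCast_atTop_atTop

lemma M0_le (δ : ℝ) (hδ : 0 < δ) : ∀ᶠ x : ℕ in atTop, (M0 δ x : ℝ) ≤ 2 * (x : ℝ) ^ (δ / 4) := by
  have h1 : Tendsto (fun x : ℕ => (x : ℝ) ^ (δ / 4)) atTop atTop :=
    (tendsto_rpow_atTop (by positivity)).comp tendsto_natCast_atTop_atTop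
  filter_upwards [h1.eventually_ge_atTop 1] with x hx
  have := Nat.ceil_lt_add_one (show (0 : ℝ) ≤ (x : ℝ) ^ (δ / 4) by positivity)
  unfold M0
  linarith

open Classical in
theorem expected (r C : ℕ) (δ ε : ℝ) (hδ : 0 < δ) (hε : 0 < ε) {z : ℕ → ℕ} (hz : Grow z) :
    ∀ᶠ x : ℕ in atTop, ∀ T : Finset (ℤ × ℤ), T.card = r → DT T ≠ 0 → (∀ f ∈ T, IsCoprime f.1 f.2) →
    (∀ f ∈ T, |f.1| ≤ (x : ℤ) ^ C ∧ |f.2| ≤ (x : ℤ) ^ C) → ∀ u v : ℕ, v ≤ x ^ C → (x : ℝ) ^ δ ≤ (v : ℝ) - u →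
    (∀ f ∈ T, ∀ n, u < n → n ≤ v → 1 ≤ val f n) →
    |∑ n ∈ Ioc u v, ∏ f ∈ T, rho1 z (val f n) - BH T * ∑ n ∈ Ioc u v, ∏ f ∈ T, (Real.log (val f n))⁻¹| ≤
      ε * (BH T * ∑ n ∈ Ioc u v, ∏ f ∈ T, (Real.log (val f n))⁻¹) + (x : ℝ) ^ (δ / 2) ∧
    ((v : ℝ) - u) / (2 * ((2 * C + 1) * Real.log x) ^ r) ≤ ∑ n ∈ Ioc u v, ∏ f ∈ T, (Real.log (val f n))⁻¹ := by
  set ε' : ℝ := min ε 1 / 20 with hε'
  have hmin : 0 < min ε 1 := lt_min hε one_pos
  have hε'0 : 0 < ε' := by positivity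
  have hε'1 : ε' ≤ 1 := by
    have := min_le_right ε 1
    rw [hε']; linarith
  have hε'2 : 8 * ε' ≤ ε := by
    have := min_le_left ε 1
    rw [hε']; linarith
  obtain ⟨K, x0, M, hK, hM, hmain⟩ := main_det r ε' hε'0 hε'1
  obtain ⟨z0, hpart⟩ := part r ε' hε'0
  obtain ⟨δ₁, hδ₁, hWs⟩ := W_small
  have hWev := hWs z (hz.pow δ₁ hδ₁)
  set a : ℝ := δ / (8 * (3 * r + K)) with ha
  have hrK : (0 : ℝ) < 3 * r + K := by
    have : (1 : ℝ) ≤ K := by exact_mod_cast hK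
    have : (0 : ℝ) ≤ r := Nat.cast_nonneg r
    linarith
  have ha0 : 0 < a := by positivity
  have haK : a * (3 * r + K) = δ / 8 := by rw [ha]; field_simp
  set γ : ℝ := a / (2 * C + 1) with hγ
  have hC1 : (0 : ℝ) < 2 * C + 1 := by positivity
  have hγ0 : 0 < γ := by positivity
  have hMt := M0_tendsto δ hδ
  have hVt : Tendsto (fun x : ℕ => x ^ (2 * C + 1)) atTop atTop := tendsto_pow_atTop (by omega)
  -- all the conditions
  have e1 := hMt.eventually_ge_atTop M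
  have e2 := (hz.tendsto.comp hMt).eventually_ge_atTop z0
  have e3 := hMt.eventually (hz.big ((2 * C + 1) * (4 / δ)))
  have e4 := (hz.tendsto.comp hVt).eventually_ge_atTop x0
  have e5 := hMt.eventually hWev
  obtain ⟨N5, hN5⟩ := eventually_atTop.1 hWev
  have e5' := hMt.eventually_ge_atTop N5
  have e6 := hVt.eventually (hz.pow γ hγ0)
  have e7 := ev_pow 1 a (2 * a) (by linarith)
  have e7' := ev_pow 2 a (2 * a) (by linarith)
  have e8 := ev_log ((2 * C + 1) * 2 + 1) 1 a ha0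
  have e9 := ev_pow 4 0 (δ / 8) (by positivity)
  have e10 := M0_le δ hδ
  have e11 := ev_pow (2 * r * 2 ^ r / ε' * 1) (δ / 4) (δ / 2) (by linarith)
  have e12 := ev_pow (1 + 2 * r) (δ / 4) (δ / 2) (by linarith)
  have e13 := ev_pow (4 * r) (δ / 4) δ (by linarith)
  have e14 := ev_log (2 * (2 * C + 1 : ℝ) ^ r) r (δ / 2) (by positivity)
  have e15 := hMt.eventually_ge_atTop 2
  filter_upwards [e1, e2, e3, e4, e5', e6, e7', e8, e9, e10, e11, e12, e13, e14, e15, eventually_ge_atTop 3] with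
    x e1 e2 e3 e4 e5 e6 e7 e8 e9 e10 e11 e12 e13 e14 e15 hx3
  intro T hTr hD hT hTb u v hvx huv hpos
  have hx0 : (0 : ℝ) < x := by exact_mod_cast (by omega : 0 < x)
  have hx1 : (1 : ℝ) ≤ x := by exact_mod_cast (by omega : 1 ≤ x)
  have hlx : 1 ≤ Real.log x := by
    rw [Real.le_log_iff_exp_le hx0]
    have := Real.exp_one_lt_d9
    have : (3 : ℝ) ≤ x := by exact_mod_cast hx3
    linarith
  set m := M0 δ x with hm
  set V := x ^ (2 * C + 1) with hV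
  set Y := z V with hY
  set w := z m with hw
  have hf1 := fst_ne T hD
  obtain ⟨p, q, hpq, hI⟩ := big_Ioc T u v m
  have hmem : ∀ n ∈ Ioc p q, u < n ∧ n ≤ v ∧ ∀ f ∈ T, m ≤ val f n := by
    intro n hn
    rw [← hI, mem_filter, mem_Ioc] at hn
    exact ⟨hn.1.1, hn.1.2, hn.2⟩
  have hvalV : ∀ f ∈ T, ∀ n, n ≤ v → val f n ≤ V := fun f hf n hn =>
    val_up f n x C (hTb f hf) (hn.trans hvx) (by omega)
  have hBH := BH_nonneg T hD hT
  -- the singular series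
  have hlogH : Real.log (2 * ((x : ℝ) ^ C) ^ 2) ≤ w := by
    have h1 : Real.log (2 * ((x : ℝ) ^ C) ^ 2) = Real.log 2 + 2 * C * Real.log x := by
      rw [Real.log_mul (by norm_num) (by positivity), Real.log_pow, Real.log_pow]
      push_cast; ring
    have h2 : Real.log 2 ≤ Real.log x := Real.log_le_log (by norm_num) (by exact_mod_cast (by omega : 2 ≤ x))
    have h3 : δ / 4 * Real.log x ≤ Real.log m := by
      rw [← Real.log_rpow hx0]
      exact Real.log_le_log (by positivity) (Nat.le_ceil _)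
    have h4 : (2 * C + 1) * (4 / δ) * (δ / 4 * Real.log x) ≤ w := by
      refine le_trans ?_ e3
      exact mul_le_mul_of_nonneg_left h3 (by positivity)
    have h5 : (2 * C + 1) * (4 / δ) * (δ / 4 * Real.log x) = (2 * C + 1) * Real.log x := by field_simp
    rw [h1]
    linarith
  have hTb' : ∀ f ∈ T, |(f.1 : ℝ)| ≤ (x : ℝ) ^ C ∧ |(f.2 : ℝ)| ≤ (x : ℝ) ^ C := by
    intro f hf
    have := hTb f hf
    exact ⟨by exact_mod_cast this.1, by exact_mod_cast this.2⟩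
  -- the number of exceptional integers
  have hmV : (Ioc p q).Nonempty → m ≤ V := by
    rintro ⟨n, hn⟩
    rcases T.eq_empty_or_nonempty with hTe | ⟨f, hf⟩
    · have h1 : (m : ℝ) ≤ V := by
        have h2 : (M0 δ x : ℝ) ≤ 2 * (x : ℝ) ^ (δ / 4) := e10
        have h3 : (x : ℝ) ^ δ ≤ (x : ℝ) ^ C := by
          have h4 : ((v : ℝ)) ≤ ((x ^ C : ℕ) : ℝ) := by exact_mod_cast hvx
          push_cast at h4
          have h5 : (0 : ℝ) ≤ u := Nat.cast_nonneg u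
          linarith
        have h6 : (x : ℝ) ^ (δ / 4) ≤ (x : ℝ) ^ δ := Real.rpow_le_rpow_of_exponent_le hx1 (by linarith)
        have h7 : (V : ℝ) = (x : ℝ) ^ C * ((x : ℝ) ^ C * x) := by rw [hV]; push_cast; ring
        have h8 : (1 : ℝ) ≤ (x : ℝ) ^ C := one_le_pow₀ hx1
        have hx2 : (2 : ℝ) ≤ x := by exact_mod_cast (by omega : 2 ≤ x)
        have h9 : (2 : ℝ) ≤ (x : ℝ) ^ C * x := by nlinarith
        rw [h7]
        calc (m : ℝ) ≤ 2 * (x : ℝ) ^ (δ / 4) := h2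
          _ ≤ (x : ℝ) ^ C * ((x : ℝ) ^ C * x) := by nlinarith
      exact_mod_cast h1
    · exact ((hmem n hn).2.2 f hf).trans (hvalV f hf n (hmem n hn).2.1)
  have hexc : (((Ioc u v).filter (fun n => ¬ ∀ f ∈ T, m ≤ val f n)).card : ℝ) ≤ r * m := by
    have h1 := few_small T hf1 u v m hpos
    rw [hTr] at h1
    exact_mod_cast h1
  have hrm : (r : ℝ) * m ≤ 2 * r * (x : ℝ) ^ (δ / 4) := by
    have := mul_le_mul_of_nonneg_left e10 (Nat.cast_nonneg (α := ℝ) r)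
    linarith
  have hsplit : ∀ g : ℕ → ℝ, ∑ n ∈ Ioc u v, g n = ∑ n ∈ Ioc p q, g n +
      ∑ n ∈ (Ioc u v).filter (fun n => ¬ ∀ f ∈ T, m ≤ val f n), g n := by
    intro g
    rw [← hI]
    exact (sum_filter_add_sum_filter_not _ _ _).symm
  set E := (Ioc u v).filter (fun n => ¬ ∀ f ∈ T, m ≤ val f n) with hE
  set Lam := ∑ n ∈ Ioc u v, ∏ f ∈ T, (Real.log (val f n))⁻¹ with hLam
  set Lam' := ∑ n ∈ Ioc p q, ∏ f ∈ T, (Real.log (val f n))⁻¹ with hLam'
  have hLs : Lam = Lam' + ∑ n ∈ E, ∏ f ∈ T, (Real.log (val f n))⁻¹ := hsplit _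
  have hLE : ∑ n ∈ E, ∏ f ∈ T, (Real.log (val f n))⁻¹ ≤ r * m * 2 ^ r := by
    calc ∑ n ∈ E, ∏ f ∈ T, (Real.log (val f n))⁻¹ ≤ ∑ n ∈ E, (2 : ℝ) ^ r := by
          apply sum_le_sum
          intro n _
          rw [← hTr]
          exact lam_le T n
      _ = E.card * 2 ^ r := by rw [sum_const, nsmul_eq_mul]
      _ ≤ _ := mul_le_mul_of_nonneg_right hexc (by positivity)
  have hLE0 : 0 ≤ ∑ n ∈ E, ∏ f ∈ T, (Real.log (val f n))⁻¹ := sum_nonneg fun n _ => lam_nonneg T n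
  -- lower bound for the weight
  have hlogV : Real.log V = (2 * C + 1) * Real.log x := by
    rw [hV]; push_cast; rw [Real.log_pow]; push_cast; ring
  have hlV0 : 0 < Real.log V := by rw [hlogV]; positivity
  have hcardpq : ((Ioc p q).card : ℝ) ≥ ((v : ℝ) - u) - r * m := by
    have h1 := card_filter_add_card_filter_not (s := Ioc u v) (fun n => ∀ f ∈ T, m ≤ val f n)
    have h2 : ((Ioc p q).card : ℝ) + (E.card : ℝ) = ((Ioc u v).card : ℝ) := by
      rw [← hI]; exact_mod_cast h1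
    have huv' : u ≤ v := by
      have h3 : (0 : ℝ) < (x : ℝ) ^ δ := by positivity
      have h4 : (u : ℝ) < v := by linarith
      exact_mod_cast h4.le
    have h3 : ((Ioc u v).card : ℝ) = (v : ℝ) - u := by rw [Nat.card_Ioc, Nat.cast_sub huv']
    rw [h3] at h2
    linarith
  have hlow : ∀ n ∈ Ioc p q, 1 / (Real.log V) ^ r ≤ ∏ f ∈ T, (Real.log (val f n))⁻¹ := by
    intro n hn
    obtain ⟨h1, h2, h3⟩ := hmem n hn
    rw [← inv_eq_one_div, ← inv_pow, ← hTr, ← prod_const]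
    apply Finset.prod_le_prod
    · intro f _; positivity
    · intro f hf
      have h4 : (m : ℝ) ≤ val f n := by exact_mod_cast h3 f hf
      have h5 : (2 : ℝ) ≤ m := by exact_mod_cast e15
      apply inv_anti₀
      · exact Real.log_pos (by linarith)
      · exact Real.log_le_log (by linarith) (by exact_mod_cast hvalV f hf n h2)
  have hyr : (r : ℝ) * m ≤ ((v : ℝ) - u) / 2 := by
    have h1 : 4 * (r : ℝ) * (x : ℝ) ^ (δ / 4) ≤ (x : ℝ) ^ δ := e13
    linarith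
  have hLamlow : ((v : ℝ) - u) / (2 * ((2 * C + 1) * Real.log x) ^ r) ≤ Lam' := by
    rw [← hlogV]
    calc ((v : ℝ) - u) / (2 * (Real.log V) ^ r) = (((v : ℝ) - u) / 2) * (1 / (Real.log V) ^ r) := by
          field_simp
      _ ≤ ((Ioc p q).card : ℝ) * (1 / (Real.log V) ^ r) := by
          apply mul_le_mul_of_nonneg_right _ (by positivity)
          linarith
      _ = ∑ n ∈ Ioc p q, 1 / (Real.log V) ^ r := by rw [sum_const, nsmul_eq_mul]
      _ ≤ Lam' := sum_le_sum hlow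
  have hLL : Lam' ≤ Lam := by linarith
  have hLam2 : (x : ℝ) ^ (δ / 2) ≤ Lam' := by
    refine le_trans ?_ hLamlow
    rw [le_div_iff₀ (by positivity)]
    have h1 : 2 * ((2 * C + 1) * Real.log x) ^ r ≤ (x : ℝ) ^ (δ / 2) := by
      rw [mul_pow, ← mul_assoc]
      exact e14
    calc (x : ℝ) ^ (δ / 2) * (2 * ((2 * C + 1) * Real.log x) ^ r) ≤ (x : ℝ) ^ (δ / 2) * (x : ℝ) ^ (δ / 2) :=
          mul_le_mul_of_nonneg_left h1 (by positivity)
      _ = (x : ℝ) ^ δ := by rw [← Real.rpow_add hx0]; congr 1; ring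
      _ ≤ _ := huv
  refine ⟨?_, hLamlow.trans hLL⟩
  have hLam0 : 0 ≤ Lam := sum_nonneg fun n _ => lam_nonneg T n
  -- the error terms
  have herr1 : 2 * (((Y + 1) * (Nat.log 2 V + 1)) ^ r : ℕ) * √((Y : ℝ) ^ K) ≤ (x : ℝ) ^ (δ / 4) := by
    have hYx : (Y : ℝ) ≤ (x : ℝ) ^ a := by
      have h1 : (Y : ℝ) ≤ ((x ^ (2 * C + 1) : ℕ) : ℝ) ^ γ := e6
      refine h1.trans (le_of_eq ?_)
      push_cast
      rw [← Real.rpow_natCast, ← Real.rpow_mul hx0.le]
      congr 1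
      rw [hγ]; push_cast; field_simp
    have hxa : (1 : ℝ) ≤ (x : ℝ) ^ a := Real.one_le_rpow hx1 ha0.le
    have hY1 : (Y : ℝ) + 1 ≤ (x : ℝ) ^ (2 * a) := by linarith
    have hL1 : (Nat.log 2 V : ℝ) + 1 ≤ (x : ℝ) ^ a := by
      refine le_trans ?_ e8
      rw [pow_one]
      have h1 : (Nat.log 2 V : ℝ) * Real.log 2 ≤ Real.log V := by
        have h2 : (2 : ℝ) ^ Nat.log 2 V ≤ V := by
          exact_mod_cast Nat.pow_log_le_self 2 (by rw [hV]; positivity)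
        have h3 := Real.log_le_log (by positivity) h2
        rwa [Real.log_pow] at h3
      have h4 : (1 : ℝ) / 2 ≤ Real.log 2 := by have := Real.log_two_gt_d9; linarith
      have h5 : (0 : ℝ) ≤ Nat.log 2 V := Nat.cast_nonneg _
      rw [hlogV] at h1
      nlinarith
    have hbase : (((Y + 1) * (Nat.log 2 V + 1) : ℕ) : ℝ) ≤ (x : ℝ) ^ (3 * a) := by
      push_cast
      calc ((Y : ℝ) + 1) * ((Nat.log 2 V : ℝ) + 1) ≤ (x : ℝ) ^ (2 * a) * (x : ℝ) ^ a :=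
            mul_le_mul hY1 hL1 (by positivity) (by positivity)
        _ = _ := by rw [← Real.rpow_add hx0]; congr 1; ring
    have h1 : ((((Y + 1) * (Nat.log 2 V + 1)) ^ r : ℕ) : ℝ) ≤ (x : ℝ) ^ (3 * a * r) := by
      rw [Nat.cast_pow, Real.rpow_mul hx0.le, Real.rpow_natCast]
      exact pow_le_pow_left₀ (Nat.cast_nonneg _) hbase r
    have h2 : √((Y : ℝ) ^ K) ≤ (x : ℝ) ^ (a * K) := by
      apply Real.sqrt_le_iff.2
      refine ⟨by positivity, ?_⟩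
      have h3 : (Y : ℝ) ^ K ≤ (x : ℝ) ^ (a * K) := by
        rw [Real.rpow_mul hx0.le, Real.rpow_natCast]
        exact pow_le_pow_left₀ (Nat.cast_nonneg _) hYx K
      refine h3.trans ?_
      have h4 : (1 : ℝ) ≤ (x : ℝ) ^ (a * K) := Real.one_le_rpow hx1 (by positivity)
      nlinarith
    calc 2 * (((Y + 1) * (Nat.log 2 V + 1)) ^ r : ℕ) * √((Y : ℝ) ^ K) ≤ 2 * (x : ℝ) ^ (3 * a * r) * (x : ℝ) ^ (a * K) := by
          gcongr
      _ = 2 * (x : ℝ) ^ (δ / 8) := by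
          rw [mul_assoc, ← Real.rpow_add hx0]
          congr 2
          rw [← haK]; ring
      _ ≤ (x : ℝ) ^ (δ / 8) * (x : ℝ) ^ (δ / 8) := by
          apply mul_le_mul_of_nonneg_right _ (by positivity)
          have h3 : (4 : ℝ) * (x : ℝ) ^ (0 : ℝ) ≤ (x : ℝ) ^ (δ / 8) := e9
          rw [Real.rpow_zero] at h3
          exact le_trans (by norm_num) h3
      _ = _ := by rw [← Real.rpow_add hx0]; congr 1; ring
  have hexc2 : (r : ℝ) * m * 2 ^ r ≤ ε' * Lam' := by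
    have h1 : 2 * r * 2 ^ r / ε' * 1 * (x : ℝ) ^ (δ / 4) ≤ (x : ℝ) ^ (δ / 2) := e11
    rw [mul_one, div_mul_eq_mul_div, div_le_iff₀ hε'0] at h1
    calc (r : ℝ) * m * 2 ^ r ≤ 2 * r * (x : ℝ) ^ (δ / 4) * 2 ^ r := mul_le_mul_of_nonneg_right hrm (by positivity)
      _ = 2 * r * 2 ^ r * (x : ℝ) ^ (δ / 4) := by ring
      _ ≤ (x : ℝ) ^ (δ / 2) * ε' := h1
      _ ≤ Lam' * ε' := mul_le_mul_of_nonneg_right hLam2 hε'0.le
      _ = _ := mul_comm _ _
  have hexc3 : (x : ℝ) ^ (δ / 4) + r * m ≤ (x : ℝ) ^ (δ / 2) := by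
    have h1 : (1 + 2 * (r : ℝ)) * (x : ℝ) ^ (δ / 4) ≤ (x : ℝ) ^ (δ / 2) := e12
    linarith
  -- the main term
  have hmt : |∑ n ∈ Ioc p q, ∏ f ∈ T, rho1 z (val f n) - BH T * Lam'| ≤
      (3 * ε' + 4 * ε') * (BH T * Lam') + (x : ℝ) ^ (δ / 4) := by
    rcases (Ioc p q).eq_empty_or_nonempty with he | hne
    · rw [hLam', he, sum_empty, sum_empty, mul_zero, sub_zero, abs_zero, mul_zero, zero_add]
      positivity
    have hmV' := hmV hne
    refine le_trans (hmain z hz.mono Y e4 T hTr hT p q w V ?_ (BH T) ε' hBH hε'0.le hε'1 ?_) ?_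
    · intro f hf n hn1 hn2
      obtain ⟨h1, h2, h3⟩ := hmem n (mem_Ioc.2 ⟨hn1, hn2⟩)
      have h4 := hvalV f hf n h2
      exact ⟨e1.trans (h3 f hf), h4, hz.mono (h3 f hf), hz.mono h4, hN5 _ (e5.trans (h3 f hf))⟩
    · intro S hS1 hS2
      exact hpart w e2 ((x : ℝ) ^ C) (one_le_pow₀ hx1) hlogH T hTr hD hT hTb' Y (hz.mono hmV') S hS1 hS2
    · linarith [herr1]
  have hρE0 : 0 ≤ ∑ n ∈ E, ∏ f ∈ T, rho1 z (val f n) := sum_nonneg fun n _ => (rho_prod_le z T n).1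
  have hρE : ∑ n ∈ E, ∏ f ∈ T, rho1 z (val f n) ≤ r * m := by
    calc ∑ n ∈ E, ∏ f ∈ T, rho1 z (val f n) ≤ ∑ n ∈ E, (1 : ℝ) := sum_le_sum fun n _ => (rho_prod_le z T n).2
      _ = E.card := by rw [sum_const, nsmul_eq_mul, mul_one]
      _ ≤ _ := hexc
  have hSs := hsplit (fun n => ∏ f ∈ T, rho1 z (val f n))
  rw [hSs]
  have hBL : BH T * Lam = BH T * Lam' + BH T * ∑ n ∈ E, ∏ f ∈ T, (Real.log (val f n))⁻¹ := by rw [hLs]; ring
  have hBE : BH T * ∑ n ∈ E, ∏ f ∈ T, (Real.log (val f n))⁻¹ ≤ ε' * (BH T * Lam') := by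
    calc BH T * ∑ n ∈ E, ∏ f ∈ T, (Real.log (val f n))⁻¹ ≤ BH T * (ε' * Lam') :=
          mul_le_mul_of_nonneg_left (hLE.trans hexc2) hBH
      _ = _ := by ring
  have hBE0 : 0 ≤ BH T * ∑ n ∈ E, ∏ f ∈ T, (Real.log (val f n))⁻¹ := mul_nonneg hBH hLE0
  have hBL' : BH T * Lam' ≤ BH T * Lam := mul_le_mul_of_nonneg_left hLL hBH
  have hBL0 : 0 ≤ BH T * Lam' := mul_nonneg hBH (le_trans (by positivity) hLam2)
  obtain ⟨m1, m2⟩ := abs_le.1 hmt
  have hfin : 8 * ε' * (BH T * Lam) ≤ ε * (BH T * Lam) := mul_le_mul_of_nonneg_right hε'2 (hBL0.trans hBL')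
  have hfin2 : 8 * ε' * (BH T * Lam') ≤ 8 * ε' * (BH T * Lam) := mul_le_mul_of_nonneg_left hBL' (by positivity)
  rw [abs_le]
  constructor
  · linarith
  · linarith

end Pool.Agent.H320RM.Det
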