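import Mathlib
import Pool.Agent.H320RM.Exp3

set_option autoImplicit false
set_option linter.unusedVariables false

/-! The law of large numbers for systems of linear forms in the models with a growing sieve. -/

namespace Pool.Agent.H320RM.Det

open Finset Filter Pool.Agent.H320RM.Sv Pool.Agent.H320RM.LF Pool.Agent.H320RM.Mod
open Pool.Agent.R528.RM MeasureTheory
open scoped Topology

/-- the good integers of an interval: all values are at least `m` and they are different -/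
noncomputable def good (a : ℕ × Finset (ℤ × ℤ) × ℕ × ℕ) : Finset ℕ := by
  classical
  exact (Ioc a.2.2.1 a.2.2.2).filter (fun n => (∀ f ∈ a.2.1, a.1 ≤ val f n) ∧ Set.InjOn (fun f => val f n) (a.2.1 : Set (ℤ × ℤ)))

lemma mem_good {a : ℕ × Finset (ℤ × ℤ) × ℕ × ℕ} {n : ℕ} : n ∈ good a ↔ (a.2.2.1 < n ∧ n ≤ a.2.2.2) ∧
    (∀ f ∈ a.2.1, a.1 ≤ val f n) ∧ Set.InjOn (fun f => val f n) (a.2.1 : Set (ℤ × ℤ)) := by
  classical
  unfold good
  rw [mem_filter, mem_Ioc]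

/-- the set of values -/
def vals (a : ℕ × Finset (ℤ × ℤ) × ℕ × ℕ) (n : ℕ) : Finset ℕ := a.2.1.image (fun f => val f n)

lemma vals_prod {a : ℕ × Finset (ℤ × ℤ) × ℕ × ℕ} {n : ℕ} (hn : n ∈ good a) (F : ℕ → ℝ) :
    ∏ m ∈ vals a n, F m = ∏ f ∈ a.2.1, F (val f n) := by
  classical
  unfold vals
  rw [prod_image]
  intro f hf g hg h
  exact (mem_good.1 hn).2.2 hf hg h

lemma vals_card {a : ℕ × Finset (ℤ × ℤ) × ℕ × ℕ} {n : ℕ} (hn : n ∈ good a) : (vals a n).card = a.2.1.card := by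
  classical
  unfold vals
  exact card_image_of_injOn (mem_good.1 hn).2.2

lemma coinc (T : Finset (ℤ × ℤ)) (u v : ℕ) (hpos : ∀ f ∈ T, ∀ n, u < n → n ≤ v → 1 ≤ val f n) :
    ((Ioc u v).filter (fun n => ∃ f ∈ T, ∃ g ∈ T, f ≠ g ∧ val f n = val g n)).card ≤ T.card * T.card := by
  classical
  have h1 : (Ioc u v).filter (fun n => ∃ f ∈ T, ∃ g ∈ T, f ≠ g ∧ val f n = val g n) ⊆
      (T ×ˢ T).biUnion (fun x => (Ioc u v).filter (fun n => x.1 ≠ x.2 ∧ val x.1 n = val x.2 n)) := by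
    intro n hn
    rw [mem_filter] at hn
    obtain ⟨h1, f, hf, g, hg, h2, h3⟩ := hn
    rw [mem_biUnion]
    exact ⟨(f, g), mem_product.2 ⟨hf, hg⟩, mem_filter.2 ⟨h1, h2, h3⟩⟩
  refine (card_le_card h1).trans (card_biUnion_le.trans ?_)
  have h2 : ∀ x ∈ T ×ˢ T, ((Ioc u v).filter (fun n => x.1 ≠ x.2 ∧ val x.1 n = val x.2 n)).card ≤ 1 := by
    rintro ⟨f, g⟩ hx
    rw [mem_product] at hx
    rw [card_le_one]
    intro n hn m hm
    rw [mem_filter, mem_Ioc] at hn hm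
    simp only at hn hm hx
    have a1 := hpos f hx.1 n hn.1.1 hn.1.2
    have a2 := hpos g hx.2 n hn.1.1 hn.1.2
    have a3 := hpos f hx.1 m hm.1.1 hm.1.2
    have a4 := hpos g hx.2 m hm.1.1 hm.1.2
    have b1 := hn.2.2
    have b2 := hm.2.2
    unfold val at a1 a2 a3 a4 b1 b2
    have c1 : f.1 * (n : ℤ) + f.2 = g.1 * n + g.2 := by omega
    have c2 : f.1 * (m : ℤ) + f.2 = g.1 * m + g.2 := by omega
    have c3 : (f.1 - g.1) * ((n : ℤ) - m) = 0 := by linear_combination c1 - c2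
    rcases mul_eq_zero.1 c3 with h | h
    · exfalso
      apply hn.2.1
      have h3 : f.1 = g.1 := by omega
      rw [h3] at c1
      exact Prod.ext h3 (by omega)
    · omega
  refine (sum_le_card_nsmul _ _ _ h2).trans ?_
  rw [card_product]
  simp

lemma notgood_card (a : ℕ × Finset (ℤ × ℤ) × ℕ × ℕ) (hT : ∀ f ∈ a.2.1, f.1 ≠ 0)
    (hpos : ∀ f ∈ a.2.1, ∀ n, a.2.2.1 < n → n ≤ a.2.2.2 → 1 ≤ val f n) :
    ((Ioc a.2.2.1 a.2.2.2) \ good a).card ≤ a.2.1.card * a.1 + a.2.1.card * a.2.1.card := by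
  classical
  have h1 : (Ioc a.2.2.1 a.2.2.2) \ good a ⊆ (Ioc a.2.2.1 a.2.2.2).filter (fun n => ¬ ∀ f ∈ a.2.1, a.1 ≤ val f n) ∪
      (Ioc a.2.2.1 a.2.2.2).filter (fun n => ∃ f ∈ a.2.1, ∃ g ∈ a.2.1, f ≠ g ∧ val f n = val g n) := by
    intro n hn
    rw [Finset.mem_sdiff, mem_good, mem_Ioc] at hn
    rw [mem_union, mem_filter, mem_filter, mem_Ioc]
    by_cases h2 : ∀ f ∈ a.2.1, a.1 ≤ val f n
    · right
      refine ⟨hn.1, ?_⟩
      by_contra h3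
      push Not at h3
      apply hn.2
      refine ⟨hn.1, h2, ?_⟩
      intro f hf g hg h
      by_contra h4
      exact h3 f hf g hg h4 h
    · left
      exact ⟨hn.1, h2⟩
  refine (card_le_card h1).trans ((card_union_le _ _).trans ?_)
  exact add_le_add (few_small _ hT _ _ _ hpos) (coinc _ _ _ hpos)

lemma mult_le (a : ℕ × Finset (ℤ × ℤ) × ℕ × ℕ) (hT : ∀ f ∈ a.2.1, f.1 ≠ 0) (h1 : 1 ≤ a.1) (m : ℕ) :
    {i | i ∈ good a ∧ m ∈ vals a i}.ncard ≤ a.2.1.card := by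
  classical
  have h2 : {i | i ∈ good a ∧ m ∈ vals a i} ⊆ ((a.2.1.biUnion (fun f => (good a).filter (fun i => val f i = m)) : Finset ℕ) : Set ℕ) := by
    rintro i ⟨hi, hm⟩
    unfold vals at hm
    rw [mem_image] at hm
    obtain ⟨f, hf, hfi⟩ := hm
    rw [mem_coe, mem_biUnion]
    exact ⟨f, hf, mem_filter.2 ⟨hi, hfi⟩⟩
  refine (Set.ncard_le_ncard h2 (finite_toSet _)).trans ?_
  rw [Set.ncard_coe_finset]
  refine card_biUnion_le.trans ?_
  have h3 : ∀ f ∈ a.2.1, ((good a).filter (fun i => val f i = m)).card ≤ 1 := by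
    intro f hf
    rw [card_le_one]
    intro i hi j hj
    rw [mem_filter] at hi hj
    have h4 := (mem_good.1 hi.1).2.1 f hf
    exact val_inj (hT f hf) (h1.trans h4) (hi.2.trans hj.2.symm)
  refine (sum_le_card_nsmul _ _ _ h3).trans ?_
  simp

/-- the parameters -/
noncomputable def Phi (r C : ℕ) (δ : ℝ) (x : ℕ) : Finset (ℕ × Finset (ℤ × ℤ) × ℕ × ℕ) := by
  classical
  exact {M0 δ x} ×ˢ (((powersetCard r (Icc (-(x : ℤ) ^ C) ((x : ℤ) ^ C) ×ˢ Icc (-(x : ℤ) ^ C) ((x : ℤ) ^ C))).filter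
    (fun T => ∀ f ∈ T, f.1 ≠ 0)) ×ˢ (range (x ^ C + 1) ×ˢ range (x ^ C + 1)))

lemma mem_Phi {r C : ℕ} {δ : ℝ} {x : ℕ} {a : ℕ × Finset (ℤ × ℤ) × ℕ × ℕ} : a ∈ Phi r C δ x ↔
    a.1 = M0 δ x ∧ (((∀ f ∈ a.2.1, |f.1| ≤ (x : ℤ) ^ C ∧ |f.2| ≤ (x : ℤ) ^ C) ∧ a.2.1.card = r) ∧ ∀ f ∈ a.2.1, f.1 ≠ 0) ∧
      a.2.2.1 ≤ x ^ C ∧ a.2.2.2 ≤ x ^ C := by
  classical
  unfold Phi
  rw [mem_product, mem_product, mem_product, mem_singleton, mem_filter, mem_powersetCard, mem_range, mem_range]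
  have h1 : a.2.1 ⊆ Icc (-(x : ℤ) ^ C) ((x : ℤ) ^ C) ×ˢ Icc (-(x : ℤ) ^ C) ((x : ℤ) ^ C) ↔
      ∀ f ∈ a.2.1, |f.1| ≤ (x : ℤ) ^ C ∧ |f.2| ≤ (x : ℤ) ^ C := by
    constructor
    · intro h f hf
      have h2 := h hf
      rw [mem_product, mem_Icc, mem_Icc] at h2
      rw [abs_le, abs_le]
      exact h2
    · intro h f hf
      have h2 := h f hf
      rw [abs_le, abs_le] at h2
      rw [mem_product, mem_Icc, mem_Icc]
      exact h2
  rw [h1, Nat.lt_succ_iff, Nat.lt_succ_iff]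

lemma card_Phi (r C : ℕ) (δ : ℝ) : ∀ᶠ x : ℕ in atTop, (Phi r C δ x).card ≤ x ^ (2 * (C + 2) * r + 2 * (C + 1)) := by
  classical
  filter_upwards [eventually_ge_atTop 3] with x hx
  have hx1 : 1 ≤ x ^ C := Nat.one_le_pow _ _ (by omega)
  have h1 : (Icc (-(x : ℤ) ^ C) ((x : ℤ) ^ C)).card ≤ x ^ (C + 2) := by
    rw [Int.card_Icc]
    have h2 : ((x : ℤ) ^ C + 1 - -(x : ℤ) ^ C).toNat = 2 * x ^ C + 1 := by
      have h3 : (x : ℤ) ^ C + 1 - -(x : ℤ) ^ C = ((2 * x ^ C + 1 : ℕ) : ℤ) := by push_cast; ring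
      rw [h3, Int.toNat_natCast]
    rw [h2, pow_add]
    nlinarith [Nat.pow_le_pow_left hx 2]
  have h2 : x ^ C + 1 ≤ x ^ (C + 1) := by rw [pow_succ]; nlinarith
  unfold Phi
  rw [card_product, card_product, card_product, card_singleton, one_mul, card_range]
  have h3 : (((powersetCard r (Icc (-(x : ℤ) ^ C) ((x : ℤ) ^ C) ×ˢ Icc (-(x : ℤ) ^ C) ((x : ℤ) ^ C))).filter
    (fun T => ∀ f ∈ T, f.1 ≠ 0)).card) ≤ x ^ (2 * (C + 2) * r) := by
    refine (card_filter_le _ _).trans ?_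
    rw [card_powersetCard]
    refine (Nat.choose_le_pow _ _).trans ?_
    rw [card_product, pow_mul]
    apply Nat.pow_le_pow_left
    rw [two_mul, pow_add]
    exact Nat.mul_le_mul h1 h1
  calc _ ≤ x ^ (2 * (C + 2) * r) * (x ^ (C + 1) * x ^ (C + 1)) := Nat.mul_le_mul h3 (Nat.mul_le_mul h2 h2)
    _ = _ := by rw [← pow_add, ← pow_add]; congr 1; ring

end Pool.Agent.H320RM.Det
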