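import Mathlib
import Pool.Agent.H320RM.Law

set_option autoImplicit false
set_option linter.unusedVariables false

/-! The law of large numbers for systems of linear forms in the models with a growing sieve. -/

namespace Pool.Agent.H320RM.Det

open Finset Filter Pool.Agent.H320RM.Sv Pool.Agent.H320RM.LF Pool.Agent.H320RM.Mod
open Pool.Agent.R528.RM MeasureTheory
open scoped Topology

variable {Ω : Type} {m0 : MeasurableSpace Ω} {μ : Measure Ω} [IsProbabilityMeasure μ]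
  {ℱ : Filtration ℕ m0} {A : ℕ → Set Ω}

open Classical in
/-- the number of `n` for which all values are chosen -/
noncomputable def cnt (A : ℕ → Set Ω) (T : Finset (ℤ × ℤ)) (u v : ℕ) (ω : Ω) : ℕ :=
  ((Ioc u v).filter (fun n => ∀ f ∈ T, ω ∈ A (val f n))).card

lemma cnt_eq (T : Finset (ℤ × ℤ)) (u v : ℕ) (ω : Ω) :
    (cnt A T u v ω : ℝ) = ∑ n ∈ Ioc u v, ∏ f ∈ T, In A (val f n) ω := by
  classical
  unfold cnt
  rw [card_filter]
  push_cast
  refine sum_congr rfl fun n _ => ?_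
  split_ifs with h
  · rw [prod_eq_one]
    intro f hf
    unfold In
    exact Set.indicator_of_mem (h f hf) _
  · push Not at h
    obtain ⟨f, hf, h1⟩ := h
    rw [prod_eq_zero hf]
    unfold In
    exact Set.indicator_of_notMem h1 _

lemma sum_good (F : ℕ → ℝ) (hF : ∀ m, 0 ≤ F m ∧ F m ≤ 1) (a : ℕ × Finset (ℤ × ℤ) × ℕ × ℕ) (hT : ∀ f ∈ a.2.1, f.1 ≠ 0)
    (hpos : ∀ f ∈ a.2.1, ∀ n, a.2.2.1 < n → n ≤ a.2.2.2 → 1 ≤ val f n) :
    |∑ n ∈ Ioc a.2.2.1 a.2.2.2, ∏ f ∈ a.2.1, F (val f n) - ∑ n ∈ good a, ∏ m ∈ vals a n, F m| ≤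
      a.2.1.card * a.1 + a.2.1.card * a.2.1.card := by
  classical
  have hsub : good a ⊆ Ioc a.2.2.1 a.2.2.2 := by
    intro n hn
    exact mem_Ioc.2 (mem_good.1 hn).1
  rw [sum_congr rfl fun n hn => vals_prod hn F, ← sum_sdiff hsub, add_sub_cancel_right]
  have hp : ∀ n, 0 ≤ ∏ f ∈ a.2.1, F (val f n) ∧ ∏ f ∈ a.2.1, F (val f n) ≤ 1 := fun n =>
    ⟨prod_nonneg fun f _ => (hF _).1, prod_le_one (fun f _ => (hF _).1) fun f _ => (hF _).2⟩
  rw [abs_of_nonneg (sum_nonneg fun n _ => (hp n).1)]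
  have h1 := notgood_card a hT hpos
  calc _ ≤ ∑ n ∈ Ioc a.2.2.1 a.2.2.2 \ good a, (1 : ℝ) := sum_le_sum fun n _ => (hp n).2
    _ = ((Ioc a.2.2.1 a.2.2.2 \ good a).card : ℝ) := by rw [sum_const, nsmul_eq_mul, mul_one]
    _ ≤ _ := by exact_mod_cast h1

/-- the law for fixed parameters -/
theorem law_fixed (hA : ∀ n, MeasurableSet[ℱ n] (A n)) {z : ℕ → ℕ} (hz : Grow z)
    (hprof : ∀ᵐ ω ∂μ, ∀ ε : ℝ, 0 < ε → ∀ᶠ n : ℕ in atTop, |dens μ ℱ A n ω - rho1 z (n + 1)| ≤ ε * rho1 z (n + 1))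
    (r C : ℕ) (δ : ℝ) (hδ : 0 < δ) :
    ∀ᵐ ω ∂μ, ∀ ε : ℝ, 0 < ε → ∀ᶠ x : ℕ in atTop, ∀ T : Finset (ℤ × ℤ), T.card = r → DT T ≠ 0 →
      (∀ f ∈ T, IsCoprime f.1 f.2) → (∀ f ∈ T, |f.1| ≤ (x : ℤ) ^ C ∧ |f.2| ≤ (x : ℤ) ^ C) →
      (∀ p : ℕ, p.Prime → om T p < p) → ∀ u v : ℕ, v ≤ x ^ C → (x : ℝ) ^ δ ≤ (v : ℝ) - u →
      (∀ f ∈ T, ∀ n, u < n → n ≤ v → 1 ≤ val f n) →
      |(cnt A T u v ω : ℝ) - BH T * ∑ n ∈ Ioc u v, ∏ f ∈ T, (Real.log (val f n))⁻¹| ≤
        ε * (BH T * ∑ n ∈ Ioc u v, ∏ f ∈ T, (Real.log (val f n))⁻¹) := by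
  classical
  have hMt := M0_tendsto δ hδ
  set C' : ℕ := 2 * (C + 2) * r + 2 * (C + 1) with hC'
  have h := Pool.Agent.R960.Fam.fam_law (μ := μ) (ℱ := ℱ) (A := A) hA (ρ := rho1 z) (fun n => rho1_bounds z n) hprof
    r (r + 1) C' (Nat.succ_pos r) (Phi r C δ) (card_Phi r C δ) good vals (M0 δ) hMt
    (by
      filter_upwards [eventually_ge_atTop 1] with x hx a ha i hi
      rw [mem_Phi] at ha
      refine ⟨(vals_card hi).trans ha.2.1.1.2, ?_⟩
      intro m hm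
      unfold vals at hm
      rw [mem_image] at hm
      obtain ⟨f, hf, rfl⟩ := hm
      rw [← ha.1]
      exact (mem_good.1 hi).2.1 f hf)
    (by
      filter_upwards [hMt.eventually_ge_atTop 1] with x hx a ha m
      rw [mem_Phi] at ha
      refine (mult_le a ha.2.1.2 (by rw [ha.1]; exact hx) m).trans ?_
      rw [ha.2.1.1.2]
      exact Nat.le_succ r)
  obtain ⟨c, hc, hlow⟩ := BH_low r
  filter_upwards [h] with ω hω ε hε
  set ε' : ℝ := min ε 1 / 10 with hε'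
  have hmin : 0 < min ε 1 := lt_min hε one_pos
  have hε'0 : 0 < ε' := by positivity
  have hε'1 : ε' ≤ 1 / 10 := by
    have := min_le_right ε 1
    rw [hε']; linarith
  have hε'2 : 10 * ε' ≤ ε := by
    have := min_le_left ε 1
    rw [hε']; linarith
  have e1 := hω ε' hε'0
  have e2 := expected r C δ ε' hδ hε'0 hz
  have e3 := M0_le δ hδ
  -- growth conditions
  have g1 := ev_log ((2 * r * (r + 1 : ℕ) * √(2 * (C' + 2)) * (2 * (2 * C + 1 : ℝ) ^ r)) / (ε' * c)) (r + 1) (δ / 2) (by positivity)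
  have g2 := ev_log ((2 * (2 * C + 1 : ℝ) ^ r) / (ε' * c)) r (δ / 4) (by positivity)
  have g3 := ev_pow (2 + 4 * r + 2 * r * r) (δ / 2) (3 * δ / 4) (by linarith)
  filter_upwards [e1, e2, e3, g1, g2, g3, eventually_ge_atTop 3] with x e1 e2 e3 g1 g2 g3 hx3
  intro T hTr hD hT hTb hadm u v hvx huv hpos
  have hx0 : (0 : ℝ) < x := by exact_mod_cast (by omega : 0 < x)
  have hx1 : (1 : ℝ) ≤ x := by exact_mod_cast (by omega : 1 ≤ x)
  have hlx : 1 ≤ Real.log x := by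
    rw [Real.le_log_iff_exp_le hx0]
    have := Real.exp_one_lt_d9
    have : (3 : ℝ) ≤ x := by exact_mod_cast hx3
    linarith
  have huv' : u ≤ v := by
    have h3 : (0 : ℝ) < (x : ℝ) ^ δ := by positivity
    have h4 : (u : ℝ) < v := by linarith
    exact_mod_cast h4.le
  obtain ⟨f1, f2⟩ := e2 T hTr hD hT hTb u v hvx huv hpos
  have hf1 := fst_ne T hD
  set a : ℕ × Finset (ℤ × ℤ) × ℕ × ℕ := (M0 δ x, T, u, v) with ha
  have haPhi : a ∈ Phi r C δ x := by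
    rw [mem_Phi]
    exact ⟨rfl, ⟨⟨hTb, hTr⟩, hf1⟩, huv'.trans hvx, hvx⟩
  have k1 := e1 a haPhi
  have k2 := sum_good (fun m => In A m ω) (fun m => ⟨In_nonneg m ω, In_le m ω⟩) a hf1 hpos
  have k3 := sum_good (rho1 z) (fun m => rho1_bounds z m) a hf1 hpos
  rw [cnt_eq]
  have ha21 : a.2.1 = T := rfl
  have ha3 : a.2.2.1 = u := rfl
  have ha4 : a.2.2.2 = v := rfl
  have ha1 : (a.1 : ℝ) = M0 δ x := rfl
  rw [ha21, ha3, ha4, ha1, hTr] at k2 k3
  set Lam := ∑ n ∈ Ioc u v, ∏ f ∈ T, (Real.log (val f n))⁻¹ with hLam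
  set S1 := ∑ n ∈ Ioc u v, ∏ f ∈ T, In A (val f n) ω with hS1
  set S2 := ∑ n ∈ Ioc u v, ∏ f ∈ T, rho1 z (val f n) with hS2
  set G1 := ∑ n ∈ good a, ∏ m ∈ vals a n, In A m ω with hG1
  set G2 := ∑ n ∈ good a, ∏ m ∈ vals a n, rho1 z m with hG2
  have hBH := hlow T hTr hD hT hadm
  have hBH0 : 0 < BH T := lt_of_lt_of_le hc hBH
  set y : ℝ := (v : ℝ) - u with hy
  have hy0 : 0 < y := lt_of_lt_of_le (by positivity) huv
  set G : ℝ := y / (2 * ((2 * C + 1) * Real.log x) ^ r) with hG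
  have hG0 : 0 < G := by positivity
  have hGL : c * G ≤ BH T * Lam := mul_le_mul hBH f2 hG0.le hBH0.le
  -- the number of good integers
  have hgc : ((good a).card : ℝ) ≤ y := by
    have h1 : (good a).card ≤ (Ioc u v).card := by
      apply card_le_card
      intro n hn
      exact mem_Ioc.2 (mem_good.1 hn).1
    have h2 : ((Ioc u v).card : ℝ) = y := by rw [Nat.card_Ioc, Nat.cast_sub huv']
    rw [← h2]
    exact_mod_cast h1
  -- the probabilistic error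
  have p1 : 2 * r * ((r + 1 : ℕ) : ℝ) * √(2 * (C' + 2) * Real.log x * ((good a).card : ℝ)) ≤ ε' * (c * G) := by
    have h1 : √(2 * (C' + 2) * Real.log x * ((good a).card : ℝ)) ≤ √(2 * (C' + 2)) * Real.log x * √y := by
      have h2 : 2 * (C' + 2) * Real.log x * ((good a).card : ℝ) ≤ (2 * (C' + 2)) * (Real.log x ^ 2 * y) := by
        have h3 : Real.log x ≤ Real.log x ^ 2 := by nlinarith
        have h4 : (0 : ℝ) ≤ (good a).card := Nat.cast_nonneg _
        calc 2 * (C' + 2) * Real.log x * ((good a).card : ℝ) = (2 * (C' + 2)) * (Real.log x * ((good a).card : ℝ)) := by ring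
          _ ≤ _ := by
            apply mul_le_mul_of_nonneg_left _ (by positivity)
            exact mul_le_mul h3 hgc h4 (by positivity)
      refine (Real.sqrt_le_sqrt h2).trans ?_
      rw [Real.sqrt_mul (show (0 : ℝ) ≤ 2 * (C' + 2) by positivity), Real.sqrt_mul (sq_nonneg (Real.log x)),
        Real.sqrt_sq (by linarith), mul_assoc]
    have h5 : (2 * r * ((r + 1 : ℕ) : ℝ) * √(2 * (C' + 2)) * (2 * (2 * C + 1 : ℝ) ^ r)) * Real.log x ^ (r + 1) ≤ (x : ℝ) ^ (δ / 2) * (ε' * c) := by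
      rw [div_mul_eq_mul_div, div_le_iff₀ (by positivity)] at g1
      exact g1
    have h6 : (x : ℝ) ^ (δ / 2) ≤ √y := by
      apply Real.le_sqrt_of_sq_le
      refine le_trans (le_of_eq ?_) huv
      rw [← Real.rpow_natCast, ← Real.rpow_mul hx0.le]
      congr 1; push_cast; ring
    have h7 : √y * √y = y := Real.mul_self_sqrt hy0.le
    have h8 : (0 : ℝ) ≤ √y := Real.sqrt_nonneg y
    have h9 : 2 * r * ((r + 1 : ℕ) : ℝ) * (√(2 * (C' + 2)) * Real.log x * √y) * (2 * ((2 * C + 1) * Real.log x) ^ r) ≤ ε' * (c * y) := by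
      calc 2 * r * ((r + 1 : ℕ) : ℝ) * (√(2 * (C' + 2)) * Real.log x * √y) * (2 * ((2 * C + 1) * Real.log x) ^ r) =
          ((2 * r * ((r + 1 : ℕ) : ℝ) * √(2 * (C' + 2)) * (2 * (2 * C + 1 : ℝ) ^ r)) * Real.log x ^ (r + 1)) * √y := by
            rw [mul_pow, pow_succ]; ring
        _ ≤ ((x : ℝ) ^ (δ / 2) * (ε' * c)) * √y := mul_le_mul_of_nonneg_right h5 h8
        _ ≤ (√y * (ε' * c)) * √y := by
            apply mul_le_mul_of_nonneg_right _ h8
            exact mul_le_mul_of_nonneg_right h6 (by positivity)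
        _ = ε' * (c * (√y * √y)) := by ring
        _ = _ := by rw [h7]
    have h10 : 2 * r * ((r + 1 : ℕ) : ℝ) * (√(2 * (C' + 2)) * Real.log x * √y) ≤ ε' * (c * G) := by
      rw [hG]
      have h11 : ε' * (c * (y / (2 * ((2 * C + 1) * Real.log x) ^ r))) = (ε' * (c * y)) / (2 * ((2 * C + 1) * Real.log x) ^ r) := by ring
      rw [h11, le_div_iff₀ (by positivity)]
      exact h9
    refine le_trans ?_ h10
    exact mul_le_mul_of_nonneg_left h1 (by positivity)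
  -- the small errors
  have p2 : 2 * (x : ℝ) ^ (δ / 2) + 2 * ((r : ℝ) * M0 δ x + r * r) ≤ ε' * (c * G) := by
    have h1 : (x : ℝ) ^ (δ / 4) ≤ (x : ℝ) ^ (δ / 2) := Real.rpow_le_rpow_of_exponent_le hx1 (by linarith)
    have h2 : (1 : ℝ) ≤ (x : ℝ) ^ (δ / 2) := Real.one_le_rpow hx1 (by positivity)
    have h3 : (0 : ℝ) ≤ r := Nat.cast_nonneg r
    have h4 : 2 * (x : ℝ) ^ (δ / 2) + 2 * ((r : ℝ) * M0 δ x + r * r) ≤ (2 + 4 * r + 2 * r * r) * (x : ℝ) ^ (δ / 2) := by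
      have h5 : (r : ℝ) * M0 δ x ≤ r * (2 * (x : ℝ) ^ (δ / 2)) := mul_le_mul_of_nonneg_left (by linarith) h3
      have h6 : (r : ℝ) * r ≤ r * r * (x : ℝ) ^ (δ / 2) := le_mul_of_one_le_right (by positivity) h2
      linarith
    have h5 : (2 * (2 * C + 1 : ℝ) ^ r) * Real.log x ^ r ≤ (x : ℝ) ^ (δ / 4) * (ε' * c) := by
      rw [div_mul_eq_mul_div, div_le_iff₀ (by positivity)] at g2
      exact g2
    have h6 : (x : ℝ) ^ (3 * δ / 4) * (2 * ((2 * C + 1) * Real.log x) ^ r) ≤ ε' * (c * y) := by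
      calc (x : ℝ) ^ (3 * δ / 4) * (2 * ((2 * C + 1) * Real.log x) ^ r) =
          (x : ℝ) ^ (3 * δ / 4) * ((2 * (2 * C + 1 : ℝ) ^ r) * Real.log x ^ r) := by rw [mul_pow]; ring
        _ ≤ (x : ℝ) ^ (3 * δ / 4) * ((x : ℝ) ^ (δ / 4) * (ε' * c)) := mul_le_mul_of_nonneg_left h5 (by positivity)
        _ = (x : ℝ) ^ δ * (ε' * c) := by
            rw [← mul_assoc, ← Real.rpow_add hx0]
            congr 2
            ring
        _ ≤ y * (ε' * c) := mul_le_mul_of_nonneg_right huv (by positivity)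
        _ = _ := by ring
    have h7 : (x : ℝ) ^ (3 * δ / 4) ≤ ε' * (c * G) := by
      rw [hG]
      have h11 : ε' * (c * (y / (2 * ((2 * C + 1) * Real.log x) ^ r))) = (ε' * (c * y)) / (2 * ((2 * C + 1) * Real.log x) ^ r) := by ring
      rw [h11, le_div_iff₀ (by positivity)]
      exact h6
    exact h4.trans (g3.trans h7)
  have hM00 : (0 : ℝ) ≤ (r : ℝ) * M0 δ x + r * r := by positivity
  have hx2 : (0 : ℝ) ≤ (x : ℝ) ^ (δ / 2) := by positivity
  have hGe : ε' * (c * G) ≤ ε' * (BH T * Lam) := mul_le_mul_of_nonneg_left hGL hε'0.le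
  have hBL : 0 ≤ BH T * Lam := le_trans (by positivity) hGL
  obtain ⟨q1, q2⟩ := abs_le.1 k1
  obtain ⟨q3, q4⟩ := abs_le.1 k2
  obtain ⟨q5, q6⟩ := abs_le.1 k3
  obtain ⟨q7, q8⟩ := abs_le.1 f1
  -- G2 is at most about BH T * Lam
  have hG2 : ε' * G2 ≤ 3 * ε' * (BH T * Lam) := by
    have h1 : G2 ≤ 3 * (BH T * Lam) := by
      have h2 : ε' * (BH T * Lam) ≤ 1 / 10 * (BH T * Lam) := mul_le_mul_of_nonneg_right hε'1 hBL
      linarith
    calc ε' * G2 ≤ ε' * (3 * (BH T * Lam)) := mul_le_mul_of_nonneg_left h1 hε'0.le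
      _ = _ := by ring
  have hfin : 10 * ε' * (BH T * Lam) ≤ ε * (BH T * Lam) := mul_le_mul_of_nonneg_right hε'2 hBL
  rw [abs_le]
  constructor
  · linarith
  · linarith

end Pool.Agent.H320RM.Det
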